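import Pool.Agent.TH226.FR.J
import Pool.Agent.TH195.FR.T

/-! The bad sets (J6, J7) of the plan for MP_f298ee_co. -/

namespace Pool.Agent.TH780.FR

open Finset

variable {c : ℕ → ℕ → ℕ} {V U B D : Finset ℕ} {x y z l R : ℕ} {I J : Finset ℕ} {lam : ℕ → ℕ → ℕ}

/-- In a set `S` whose elements end rainbow paths with colour set `D`, `|D| = R - s`, there are
functions `p, r` with values at most `s` such that every vertex of a class of `(p, r)` has at most
`2 s` colours outside `D` inside the class. -/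
theorem few_outside (hR : RB c V R) {s : ℕ} (hDs : D.card + s = R) {S : Finset ℕ} (hSV : S ⊆ V)
    (hS : ∀ x ∈ S, ∃ u, P c V u x D) :
    ∃ p r : ℕ → ℕ, (∀ x, p x ≤ s ∧ r x ≤ s) ∧
      ∀ T ⊆ S, (∀ x ∈ T, ∀ y ∈ T, p x = p y ∧ r x = r y) →
        ∀ x ∈ T, (Col c T x \ D).card ≤ 2 * s := by
  classical
  set Q : ℕ → ℕ → Prop := fun x j => ∃ u I, P c S u x I ∧ Disjoint I D ∧ I.card = j with hQ
  set Q' : ℕ → ℕ → Prop := fun x j => ∃ u I, P c S x u I ∧ Disjoint I D ∧ I.card = j with hQ'
  have hlen : ∀ u x I, P c S u x I → Disjoint I D → I.card ≤ s := by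
    intro u x I hp hd
    obtain ⟨w, hw⟩ := hS u hp.left_mem
    have := hR.two hw (hp.mono hSV) hd.symm
    omega
  refine ⟨fun x => Nat.findGreatest (Q x) s, fun x => Nat.findGreatest (Q' x) s,
    fun x => ⟨Nat.findGreatest_le _, Nat.findGreatest_le _⟩, ?_⟩
  intro T hTS hT x hx
  have hxS := hTS hx
  have q0 : Q x 0 := ⟨x, ∅, P.nil hxS, by simp, rfl⟩
  have q0' : Q' x 0 := ⟨x, ∅, P.nil hxS, by simp, rfl⟩
  obtain ⟨u, I, hI, hId, hIc⟩ := Nat.findGreatest_spec (P := Q x) (Nat.zero_le s) q0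
  obtain ⟨u', I', hI', hId', hIc'⟩ := Nat.findGreatest_spec (P := Q' x) (Nat.zero_le s) q0'
  have hsub : Col c T x \ D ⊆ I ∪ I' := by
    intro a ha
    rw [Finset.mem_sdiff, mem_Col] at ha
    obtain ⟨ha, haD⟩ := ha
    rw [Finset.mem_union]
    by_contra hne
    push Not at hne
    rcases ha with ⟨y, hy, hyx, rfl⟩ | ⟨y, hy, hyx, rfl⟩
    · -- in-edge: prepend to the path starting at `x`
      have h1 := P.cons (hTS hy) hyx hI' hne.2
      have h2 : Disjoint (insert (c y x) I') D := by
        rw [Finset.disjoint_insert_left]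
        exact ⟨haD, hId'⟩
      have h3 : (insert (c y x) I').card = I'.card + 1 := Finset.card_insert_of_notMem hne.2
      have h4 := hlen _ _ _ h1 h2
      have h5 : I'.card + 1 ≤ Nat.findGreatest (Q' y) s :=
        Nat.le_findGreatest (by omega) ⟨_, _, h1, h2, h3⟩
      have h6 := (hT x hx y hy).2
      simp only at h6
      omega
    · have h1 := P.snoc hI hyx (hTS hy) hne.1
      have h2 : Disjoint (insert (c x y) I) D := by
        rw [Finset.disjoint_insert_left]
        exact ⟨haD, hId⟩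
      have h3 : (insert (c x y) I).card = I.card + 1 := Finset.card_insert_of_notMem hne.1
      have h4 := hlen _ _ _ h1 h2
      have h5 : I.card + 1 ≤ Nat.findGreatest (Q y) s :=
        Nat.le_findGreatest (by omega) ⟨_, _, h1, h2, h3⟩
      have h6 := (hT x hx y hy).1
      simp only at h6
      omega
  have h7 := Finset.card_le_card hsub
  have h8 := Finset.card_union_le I I'
  have h9 : I.card ≤ s := hlen _ _ _ hI hId
  have h10 : I'.card ≤ s := hlen _ _ _ hI' hId'
  omega

theorem bad_small (hl : 2 ≤ l) (hL : Lev c V l lam) (hR : RB c V R) (hBV : B ⊆ V)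
    {s q a : ℕ} (ha : a ∈ D) (hDs : D.card + s = R) (hBD : ∀ x ∈ B, ∃ u, P c V u x D)
    (hbad : ∀ x ∈ B, ∀ u I, P c V u x I → I ⊆ D.erase a → I.card + 2 + q ≤ D.card) :
    B.card * 2 ^ (q + 1) ≤ (s + 1) ^ 2 * l ^ (R + s) := by
  classical
  have hcD : 1 ≤ D.card := Finset.card_pos.mpr ⟨a, ha⟩
  have hD0 : (D.erase a).card = D.card - 1 := Finset.card_erase_of_mem ha
  -- sets without colour `a` and without colours outside `D`
  have key1 : ∀ B' ⊆ B, (∀ x ∈ B', ∀ y ∈ B', x < y → c x y ∈ D.erase a) →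
      B'.card * 2 ^ (q + 1) ≤ l ^ (D.card - 1) := by
    intro B' hB' hcol
    rcases B'.eq_empty_or_nonempty with h0 | ⟨b, hb⟩
    · simp [h0]
    have hq : q + 2 ≤ D.card := by
      have := hbad b (hB' hb) b ∅ (P.nil (hBV (hB' hb))) (by simp)
      simp at this
      omega
    have h1 := pairs hl (hL.sub (hB'.trans hBV)) (D.erase a) (2 ^ (D.card - 2 - q)) (by
      intro B'' hB'' hTF
      apply two_flash (c := c)
      · intro x hx y hy z hz hxy hyz
        exact hTF x hx y hy z hz hxy hyz (hcol x (hB'' hx) y (hB'' hy) hxy)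
      · intro u v K hp
        have h2 : K ⊆ D.erase a :=
          hp.subset_of_col (fun u hu v hv huv => hcol u (hB'' hu) v (hB'' hv) huv)
        have h3 := hbad v (hB' (hB'' hp.right_mem)) u K
          (hp.mono (hB''.trans (hB'.trans hBV))) h2
        omega)
    rw [hD0] at h1
    have h2 : (2 : ℕ) ^ (D.card - 1) = 2 ^ (q + 1) * 2 ^ (D.card - 2 - q) := by
      rw [← pow_add]; congr 1; omega
    rw [h2] at h1
    have h3 : (B'.card * 2 ^ (q + 1)) * 2 ^ (D.card - 2 - q) ≤
        l ^ (D.card - 1) * 2 ^ (D.card - 2 - q) := by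
      calc _ = B'.card * (2 ^ (q + 1) * 2 ^ (D.card - 2 - q)) := by ring
        _ ≤ _ := h1
    exact Nat.le_of_mul_le_mul_right h3 (by positivity)
  obtain ⟨p, r, hpr, hcls⟩ := few_outside hR hDs hBV hBD
  -- one class of `(p, r)` and one level of `a`
  have key2 : ∀ T ⊆ B, (∀ x ∈ T, ∀ y ∈ T, p x = p y ∧ r x = r y) →
      (∀ x ∈ T, ∀ y ∈ T, x < y → c x y ≠ a) →
      T.card * 2 ^ (q + 1) ≤ l ^ (2 * s + (D.card - 1)) := by
    intro T hTB hT hTa
    set O : Finset ℕ := (T.biUnion (fun x => Col c T x)) \ D with hO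
    have h1 := Pool.Agent.TH226.FR.kraft_card (hL.sub (hTB.trans hBV)) (by omega)
      (f := l ^ (D.card - 1) / 2 ^ (q + 1)) (D := O) (B := T) (r := 2 * s) (Finset.Subset.refl _)
      (by
        intro x hx
        refine (Finset.card_le_card ?_).trans (hcls T hTB hT x hx)
        intro e he
        rw [Finset.mem_inter] at he
        rw [Finset.mem_sdiff]
        exact ⟨he.2, (Finset.mem_sdiff.mp he.1).2⟩)
      (by
        intro B' hB' hF
        rw [Nat.le_div_iff_mul_le (by positivity)]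
        apply key1 B' (hB'.trans hTB)
        intro x hx y hy hxy
        have h2 : c x y ∉ O := hF x hx y hy hxy
        have h3 : c x y ∈ T.biUnion (fun x => Col c T x) := by
          rw [Finset.mem_biUnion]
          exact ⟨x, hB' hx, mem_Col.mpr (Or.inr ⟨y, hB' hy, hxy, rfl⟩)⟩
        rw [hO, Finset.mem_sdiff] at h2
        push Not at h2
        rw [Finset.mem_erase]
        exact ⟨hTa x (hB' hx) y (hB' hy) hxy, h2 h3⟩)
    calc T.card * 2 ^ (q + 1) ≤ (l ^ (2 * s) * (l ^ (D.card - 1) / 2 ^ (q + 1))) * 2 ^ (q + 1) :=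
          Nat.mul_le_mul_right _ h1
      _ = l ^ (2 * s) * ((l ^ (D.card - 1) / 2 ^ (q + 1)) * 2 ^ (q + 1)) := by ring
      _ ≤ l ^ (2 * s) * l ^ (D.card - 1) := Nat.mul_le_mul_left _ (Nat.div_mul_le_self _ _)
      _ = _ := by rw [pow_add]
  -- sum over the classes
  set F : ℕ → ℕ × ℕ := fun x => (p x, r x) with hF
  set TT : Finset (ℕ × ℕ) := Finset.range (s + 1) ×ˢ Finset.range (s + 1) with hTT
  have key3 : ∀ S ⊆ B, (∀ x ∈ S, ∀ y ∈ S, x < y → c x y ≠ a) →
      S.card * 2 ^ (q + 1) ≤ (s + 1) ^ 2 * l ^ (2 * s + (D.card - 1)) := by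
    intro S hS hSa
    have h1 : S.card = ∑ t ∈ TT, (S.filter (fun x => F x = t)).card := by
      apply Finset.card_eq_sum_card_fiberwise
      intro x hx
      have := hpr x
      simp only [hTT, hF, Finset.coe_product, Set.mem_prod, Finset.coe_range, Set.mem_Iio]
      constructor
      · show p x < s + 1
        omega
      · show r x < s + 1
        omega
    rw [h1, Finset.sum_mul]
    calc ∑ t ∈ TT, (S.filter (fun x => F x = t)).card * 2 ^ (q + 1) ≤
        ∑ t ∈ TT, l ^ (2 * s + (D.card - 1)) := by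
          apply Finset.sum_le_sum
          intro t _
          apply key2 _ ((Finset.filter_subset _ _).trans hS)
          · intro x hx y hy
            rw [Finset.mem_filter] at hx hy
            have := hx.2.trans hy.2.symm
            simp only [hF, Prod.mk.injEq] at this
            exact this
          · intro x hx y hy
            exact hSa x (Finset.mem_filter.mp hx).1 y (Finset.mem_filter.mp hy).1
      _ = _ := by
          rw [Finset.sum_const, smul_eq_mul, hTT, Finset.card_product, Finset.card_range]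
          ring
  have h4 := Pool.Agent.TH195.FR.card_mul_le_of_cls (hL.sub hBV) a (k := 2 ^ (q + 1))
    (m := (s + 1) ^ 2 * l ^ (2 * s + (D.card - 1))) (by
      intro i
      apply key3 _ Pool.Agent.TH195.FR.cls_sub
      intro x hx y hy hxy h
      exact Pool.Agent.TH195.FR.cls_free (hL.sub hBV) a i x hx y hy hxy (by simpa using h))
  calc B.card * 2 ^ (q + 1) ≤ l * ((s + 1) ^ 2 * l ^ (2 * s + (D.card - 1))) := h4
    _ = (s + 1) ^ 2 * l ^ (2 * s + (D.card - 1) + 1) := by rw [pow_succ]; ring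
    _ = _ := by congr 2; omega

/-- J7 regime L -/
theorem bad_large (hl : 2 ≤ l) (hL : Lev c V l lam) (hR : RB c V R) (hBV : B ⊆ V) (h2 : 2 ≤ R)
    {a : ℕ} (ha : a ∈ D) (hDs : D.card = R) (hBD : ∀ x ∈ B, ∃ u, P c V u x D)
    (hbad : ∀ x ∈ B, ∀ u, ¬ P c V u x (D.erase a)) :
    (B.card : ℚ) ≤ harmonic (R - 1) * (l : ℚ) ^ (R - 1) := by
  classical
  have hD0 : (D.erase a).card = R - 1 := by rw [Finset.card_erase_of_mem ha, hDs]
  have hcolD : ∀ x ∈ B, ∀ y ∈ B, x < y → c x y ∈ D := by
    intro x hx y hy hxy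
    by_contra h
    obtain ⟨u, hu⟩ := hBD x hx
    have h1 := hR _ _ _ (P.snoc hu hxy (hBV hy) h)
    rw [Finset.card_insert_of_notMem h] at h1
    omega
  have key : ∀ i, ((Pool.Agent.TH195.FR.cls lam B a i).card : ℚ) ≤
      harmonic (R - 1) * (l : ℚ) ^ (R - 1 - 1) := by
    intro i
    have hsub : Pool.Agent.TH195.FR.cls lam B a i ⊆ B := Pool.Agent.TH195.FR.cls_sub
    have := log_bound (c := c) (B := Pool.Agent.TH195.FR.cls lam B a i) (D := D.erase a) hl
      ((hL.sub hBV).sub hsub) (Finset.card_pos.mp (by omega))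
      (by
        intro x hx y hy hxy
        rw [Finset.mem_erase]
        refine ⟨?_, hcolD x (hsub hx) y (hsub hy) hxy⟩
        intro h
        exact Pool.Agent.TH195.FR.cls_free (hL.sub hBV) a i x hx y hy hxy (by simpa using h))
      (by
        intro x y hp
        exact hbad y (hsub hp.right_mem) x (hp.mono (hsub.trans hBV)))
    rwa [hD0] at this
  have h3 : (B.card : ℚ) = ∑ i ∈ Finset.range l,
      ((Pool.Agent.TH195.FR.cls lam B a i).card : ℚ) := by
    exact_mod_cast Pool.Agent.TH195.FR.card_eq_sum_cls (hL.sub hBV) a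
  rw [h3]
  calc ∑ i ∈ Finset.range l, ((Pool.Agent.TH195.FR.cls lam B a i).card : ℚ) ≤
      ∑ i ∈ Finset.range l, harmonic (R - 1) * (l : ℚ) ^ (R - 1 - 1) :=
        Finset.sum_le_sum (fun i _ => key i)
    _ = harmonic (R - 1) * (l : ℚ) ^ (R - 1) := by
      rw [Finset.sum_const, Finset.card_range, nsmul_eq_mul]
      have : (l : ℚ) ^ (R - 1) = l ^ (R - 1 - 1) * l := by
        rw [← pow_succ]; congr 1; omega
      rw [this]; ring

end Pool.Agent.TH780.FR
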