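import Pool.Agent.TH780.FR.Stage
import Pool.Agent.TH780.FR.Bad
import Pool.Agent.TH226.FR.C1
import Pool.Agent.TH195.FR.C2

/-! The core (J17) of the plan for MP_f298ee_co: assembly. -/
namespace Pool.Agent.TH780.FR
open Finset
variable {c : ℕ → ℕ → ℕ} {V U B D : Finset ℕ} {x y z l R : ℕ} {I J : Finset ℕ} {lam : ℕ → ℕ → ℕ}

/-- `1 + 1/2 + ... + 1/n ≤ log₂ n + 1` -/
theorem harmonic_le_log : ∀ n : ℕ, harmonic n ≤ (Nat.log 2 n : ℚ) + 1 := by
  intro n
  induction n using Nat.strong_induction_on with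
  | _ n ih =>
    rcases Nat.lt_or_ge n 2 with h | h
    · interval_cases n
      · simp
      · simp [harmonic_succ]
    · have h1 := ih (n / 2) (by omega)
      have h2 : Nat.log 2 n = Nat.log 2 (n / 2) + 1 := Nat.log_of_one_lt_of_le (by norm_num) h
      have h3 : harmonic n ≤ harmonic (n / 2) + 1 := by
        have h4 : harmonic n = harmonic (n / 2) + ∑ i ∈ Finset.Ico (n / 2) n, ((i : ℚ) + 1)⁻¹ := by
          unfold harmonic
          rw [Finset.range_eq_Ico, Finset.range_eq_Ico]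
          have := Finset.sum_Ico_consecutive (fun i : ℕ => ((↑(i + 1) : ℚ))⁻¹) (Nat.zero_le (n / 2))
            (Nat.div_le_self n 2)
          rw [← this]
          push_cast
          rfl
        rw [h4]
        have h5 : ∑ i ∈ Finset.Ico (n / 2) n, ((i : ℚ) + 1)⁻¹ ≤
            ∑ i ∈ Finset.Ico (n / 2) n, (((n / 2 : ℕ) : ℚ) + 1)⁻¹ := by
          apply Finset.sum_le_sum
          intro i hi
          rw [Finset.mem_Ico] at hi
          apply inv_anti₀ (by positivity)
          have : ((n / 2 : ℕ) : ℚ) ≤ i := by exact_mod_cast hi.1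
          linarith
        rw [Finset.sum_const, Nat.card_Ico, nsmul_eq_mul] at h5
        have h6 : ((n - n / 2 : ℕ) : ℚ) * (((n / 2 : ℕ) : ℚ) + 1)⁻¹ ≤ 1 := by
          rw [← div_eq_mul_inv, div_le_one (by positivity)]
          have : n - n / 2 ≤ n / 2 + 1 := by omega
          exact_mod_cast this
        linarith
      rw [h2]
      push_cast
      linarith

/-- J17 -/
theorem core (hl : 3 ≤ l) (hL : Lev c V l lam) (hR : RB c V R) (hRec : Rec c V l R) (h2R : 2 ≤ R)
    {g : ℕ → ℕ} (hg : ∀ U ⊆ V, ∀ j, RB c U j → U.card ≤ g j * l ^ j) (gm : Monotone g)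
    {E t σ s0 q K κ : ℕ} (hn : R * l ^ R ≤ E * V.card)
    (hκ : κ = 6 * (s0 + 2)) (ht0 : 1 ≤ t) (hs0 : 1 ≤ s0) (hK : 0 < K)
    (h1 : 2 * κ * R < l ^ t)
    (h2 : 32 * κ * t * R ^ 2 ≤ l ^ σ)
    (h3 : 32 * κ * t ^ 2 * g σ * E ≤ R)
    (h4 : 256 * κ ^ 2 * t ^ 3 * g σ * E ≤ l ^ s0)
    (h5 : 4 * κ * g (s0 + q) * l ^ q * E ≤ R)
    (h6 : 16 * κ * g σ * E ≤ K)
    (h7 : (s0 = 1 ∧ q = 0 ∧ 4 * κ * t * K * E * (Nat.log 2 R + 1) ≤ l) ∨
      4 * κ * t * K * E * s0 ^ 2 * l ^ (s0 - 1) ≤ 2 ^ (q + 1)) : False := by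
  classical
  have hlpos : 0 < l := by omega
  have hlR : 0 < l ^ R := Nat.pow_pos hlpos
  have hE : 0 < E := by
    rcases Nat.eq_zero_or_pos E with h | h
    · subst h
      have : 0 < R * l ^ R := Nat.mul_pos (by omega) hlR
      omega
    · exact h
  have hn0 : 0 < V.card := by
    rcases Nat.eq_zero_or_pos V.card with h | h
    · rw [h] at hn
      have : 0 < R * l ^ R := Nat.mul_pos (by omega) hlR
      omega
    · exact h
  have hκ0 : 0 < κ := by omega
  have hgpos : ∀ j, 1 ≤ g j := by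
    intro j
    obtain ⟨x, hx⟩ := Finset.card_pos.mp hn0
    have hrb : RB c {x} 0 := by
      intro u v I hp
      induction hp with
      | nil hx => simp
      | snoc hp hlt hm hn ih =>
        have e1 := hp.right_mem
        simp at e1 hm
        omega
    have := hg {x} (by simpa using hx) 0 hrb
    simp at this
    exact this.trans (gm (Nat.zero_le j))
  have hnA : 32 * κ * t ^ 2 * g σ * l ^ R ≤ V.card := by
    have e1 : E * (32 * κ * t ^ 2 * g σ * l ^ R) ≤ E * V.card := by
      calc E * (32 * κ * t ^ 2 * g σ * l ^ R) = (32 * κ * t ^ 2 * g σ * E) * l ^ R := by ring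
        _ ≤ R * l ^ R := Nat.mul_le_mul_right _ h3
        _ ≤ _ := hn
    exact Nat.le_of_mul_le_mul_left e1 hE
  -- the set Z
  set Z := Hin c V R ∩ Hout c V R with hZdef
  have hZV : Z ⊆ V := fun x hx => Hin_sub (Finset.mem_inter.mp hx).1
  have hZ : V.card ≤ 3 * Z.card := by
    have e1 := card_not_Hin hR (by omega) hRec
    have e2 := card_not_Hout hR (by omega) hRec
    have e3 : V ⊆ Z ∪ ((V \ Hin c V R) ∪ (V \ Hout c V R)) := by
      intro x hx
      by_cases h1 : x ∈ Hin c V R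
      · by_cases h2 : x ∈ Hout c V R
        · simp [hZdef, h1, h2]
        · simp [hx, h2]
      · simp [hx, h1]
    have e4 := (Finset.card_le_card e3).trans ((Finset.card_union_le _ _).trans
      (Nat.add_le_add_left (Finset.card_union_le _ _) _))
    have e5 : (V \ Hin c V R).card * 3 ≤ V.card := (Nat.mul_le_mul_left _ hl).trans e1
    have e6 : (V \ Hout c V R).card * 3 ≤ V.card := (Nat.mul_le_mul_left _ hl).trans e2
    omega
  obtain ⟨b, hb1, hb2, hb3⟩ := exists_blocks Z (s0 + 2) (by omega)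
  -- block size
  have hbig : ∀ i < s0 + 2, V.card ≤ κ * (b i).card ∧ 32 ≤ (b i).card := by
    intro i hi
    rw [hb2 i hi]
    have e0 : 32 * κ ≤ V.card := by
      refine le_trans ?_ hnA
      have : 1 ≤ t ^ 2 * g σ * l ^ R :=
        Nat.mul_pos (Nat.mul_pos (Nat.pow_pos ht0) (hgpos σ)) hlR
      calc 32 * κ = 32 * κ * 1 := by ring
        _ ≤ 32 * κ * (t ^ 2 * g σ * l ^ R) := Nat.mul_le_mul_left _ this
        _ = _ := by ring
    have e1 : 64 * (s0 + 2) ≤ Z.card := by omega
    have e2 : 64 ≤ Z.card / (s0 + 2) := (Nat.le_div_iff_mul_le (by omega)).mpr e1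
    have e3 : Z.card < (Z.card / (s0 + 2) + 1) * (s0 + 2) :=
      Nat.lt_mul_of_div_lt (Nat.lt_succ_self _) (by omega)
    refine ⟨?_, by omega⟩
    set w := Z.card / (s0 + 2) with hw
    subst hκ
    nlinarith
  have hZcol : ∀ y ∈ Z, (Col c V y).card ≤ 2 * R := by
    intro y hy
    rw [Finset.mem_inter] at hy
    rw [Col_eq]
    have e1 := outC_card hR hy.1
    have e2 := inC_card hR hy.2
    have e3 := Finset.card_union_le (InC c V y) (OutC c V y)
    omega
  have hb0 := hbig 0 (by omega)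
  have hb1' := hbig 1 (by omega)
  obtain ⟨C, hC, V', hV'2, hV'c, hrare⟩ := few_colours (A := b 0) (V2 := b 1) (t := t) (κ := κ)
    (by omega) hL hR hRec ((hb1 0 (by omega)).trans hZV)
    (Finset.card_pos.mp (by omega)) (fun y hy => hZcol y (hb1 0 (by omega) hy))
    (fun x hx => (Finset.mem_inter.mp (hb1 1 (by omega) hx)).2)
    (fun y hy q hq => hb3 0 1 (by omega) (by omega) y hy q hq) hb0.1 h1 ht0
  have hV'Z : V' ⊆ Z := hV'2.trans (hb1 1 (by omega))
  have hV'n : V.card ≤ (κ * t) * V'.card := by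
    calc V.card ≤ κ * (b 1).card := hb1'.1
      _ ≤ κ * (t * V'.card) := Nat.mul_le_mul_left _ hV'c
      _ = _ := by ring
  have hκt : 0 < κ * t := Nat.mul_pos hκ0 ht0
  have hV'2' : 32 * t * g σ * l ^ R ≤ V'.card := by
    have e1 : (κ * t) * (32 * t * g σ * l ^ R) ≤ (κ * t) * V'.card := by
      calc (κ * t) * (32 * t * g σ * l ^ R) = 32 * κ * t ^ 2 * g σ * l ^ R := by ring
        _ ≤ V.card := hnA
        _ ≤ _ := hV'n
    exact Nat.le_of_mul_le_mul_left e1 hκt
  have hV'3 : 256 * t * R * (κ * t) * g σ * l ^ R ≤ l ^ s0 * V'.card := by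
    have e1 : (κ * t * E) * (256 * t * R * (κ * t) * g σ * l ^ R) ≤
        (κ * t * E) * (l ^ s0 * V'.card) := by
      calc (κ * t * E) * (256 * t * R * (κ * t) * g σ * l ^ R) =
          (256 * κ ^ 2 * t ^ 3 * g σ * E) * (R * l ^ R) := by ring
        _ ≤ l ^ s0 * (E * V.card) := Nat.mul_le_mul h4 hn
        _ ≤ l ^ s0 * (E * ((κ * t) * V'.card)) := by gcongr
        _ = _ := by ring
    exact Nat.le_of_mul_le_mul_left e1 (Nat.mul_pos hκt hE)
  have hV'4 : 4 ≤ V'.card := by
    refine le_trans ?_ hV'2'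
    have : 1 ≤ t * g σ * l ^ R := Nat.mul_pos (Nat.mul_pos ht0 (hgpos σ)) hlR
    calc 4 ≤ 32 * 1 := by norm_num
      _ ≤ 32 * (t * g σ * l ^ R) := Nat.mul_le_mul_left _ this
      _ = _ := by ring
  have hσ : 32 * (κ * t) * R ≤ l ^ σ := by
    refine le_trans ?_ h2
    calc 32 * (κ * t) * R = 32 * κ * t * R := by ring
      _ ≤ 32 * κ * t * R ^ 2 := by
        apply Nat.mul_le_mul_left
        nlinarith
  obtain ⟨s, hs, D, X, hDs, hXV', hXc, hXD⟩ := find_X (σ := σ) (s0 := s0) (t := t) (κ := κ * t)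
    (by omega) hL hR hRec hg gm
    (fun x hx => (Finset.mem_inter.mp (hV'Z hx)).1) (fun x hx => (Finset.mem_inter.mp (hV'Z hx)).2)
    hC hrare hV'n hV'4 hσ hV'2' hV'3
  -- one step
  have step : ∀ s : ℕ, ∀ i : ℕ, ∀ D X : Finset ℕ, s < s0 → i + s ≤ s0 + 1 → 2 ≤ i → D.card + s = R →
      X ⊆ Z → V.card ≤ 4 * κ * t * R * X.card → (∀ x ∈ X, ∃ u, P c V u x D) →
      (∀ j, i ≤ j → j < s0 + 2 → ∀ x ∈ X, ∀ y ∈ b j, x < y) →
      0 < s ∧ ∃ a, a ∉ D ∧ ∃ X' ⊆ b i, V.card ≤ 4 * κ * t * R * X'.card ∧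
        ∀ x ∈ X', ∃ u, P c V u x (insert a D) := by
    intro s i D X hs hi h2i hDs hXZ hXc hXD hord
    have hbi := hbig i (by omega)
    have hXV : X ⊆ V := hXZ.trans hZV
    have hX0 : X.Nonempty := by
      rw [← Finset.card_pos]
      rcases Nat.eq_zero_or_pos X.card with h | h
      · rw [h] at hXc; omega
      · exact h
    have hR0 : 0 < R := by omega
    -- `l ^ R ≤ 4 κ t E |X|`
    have hXl : l ^ R ≤ 4 * κ * t * E * X.card := by
      have e1 : R * l ^ R ≤ R * (4 * κ * t * E * X.card) := by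
        calc R * l ^ R ≤ E * V.card := hn
          _ ≤ E * (4 * κ * t * R * X.card) := Nat.mul_le_mul_left _ hXc
          _ = _ := by ring
      exact Nat.le_of_mul_le_mul_left e1 hR0
    have hKE : 0 < 4 * κ * t * E := by positivity
    have hbadX : ∀ a ∈ D, ∀ B ⊆ X,
        (∀ x ∈ B, ∀ u I, P c V u x I → I ⊆ D.erase a → I.card + 2 + q ≤ D.card) →
        B.card * K ≤ X.card := by
      intro a ha B hBX hB
      rcases h7 with ⟨hs1, hq0, h7⟩ | h7
      · subst hs1
        obtain rfl : s = 0 := by omega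
        subst hq0
        have hcard : D.card = R := by omega
        have hno : ∀ x ∈ B, ∀ u, ¬ P c V u x (D.erase a) := by
          intro x hx u hp
          have e1 := hB x hx u _ hp (Finset.Subset.refl _)
          rw [Finset.card_erase_of_mem ha] at e1
          omega
        have e1 := bad_large (by omega) hL hR (hBX.trans hXV) h2R ha hcard
          (fun x hx => hXD x (hBX hx)) hno
        have e2 : harmonic (R - 1) ≤ ((Nat.log 2 R + 1 : ℕ) : ℚ) := by
          refine (harmonic_le_log _).trans ?_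
          have : Nat.log 2 (R - 1) ≤ Nat.log 2 R := Nat.log_mono_right (by omega)
          have : ((Nat.log 2 (R - 1) : ℕ) : ℚ) ≤ (Nat.log 2 R : ℕ) := by exact_mod_cast this
          push_cast
          linarith
        have e3 : B.card ≤ (Nat.log 2 R + 1) * l ^ (R - 1) := by
          have : (B.card : ℚ) ≤ ((Nat.log 2 R + 1 : ℕ) : ℚ) * (l : ℚ) ^ (R - 1) :=
            e1.trans (mul_le_mul_of_nonneg_right e2 (by positivity))
          exact_mod_cast this
        have e4 : (4 * κ * t * E) * (B.card * K) ≤ (4 * κ * t * E) * X.card := by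
          calc (4 * κ * t * E) * (B.card * K) ≤
              (4 * κ * t * E) * (((Nat.log 2 R + 1) * l ^ (R - 1)) * K) := by gcongr
            _ = (4 * κ * t * K * E * (Nat.log 2 R + 1)) * l ^ (R - 1) := by ring
            _ ≤ l * l ^ (R - 1) := Nat.mul_le_mul_right _ h7
            _ = l ^ R := by rw [← pow_succ']; congr 1; omega
            _ ≤ _ := hXl
        exact Nat.le_of_mul_le_mul_left e4 hKE
      · have e1 := bad_small (q := q) (by omega) hL hR (hBX.trans hXV) ha hDs
          (fun x hx => hXD x (hBX hx)) hB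
        have e2 : (s + 1) ^ 2 * l ^ (R + s) ≤ s0 ^ 2 * l ^ (s0 - 1) * l ^ R := by
          have : (s + 1) ^ 2 ≤ s0 ^ 2 := Nat.pow_le_pow_left (by omega) 2
          have h2 : l ^ s ≤ l ^ (s0 - 1) := Nat.pow_le_pow_right hlpos (by omega)
          calc (s + 1) ^ 2 * l ^ (R + s) = (s + 1) ^ 2 * l ^ s * l ^ R := by rw [pow_add]; ring
            _ ≤ s0 ^ 2 * l ^ (s0 - 1) * l ^ R := by gcongr
        have e4 : (2 ^ (q + 1) * (4 * κ * t * E)) * (B.card * K) ≤
            (2 ^ (q + 1) * (4 * κ * t * E)) * X.card := by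
          calc (2 ^ (q + 1) * (4 * κ * t * E)) * (B.card * K) =
              (4 * κ * t * K * E) * (B.card * 2 ^ (q + 1)) := by ring
            _ ≤ (4 * κ * t * K * E) * (s0 ^ 2 * l ^ (s0 - 1) * l ^ R) :=
                Nat.mul_le_mul_left _ (e1.trans e2)
            _ = (4 * κ * t * K * E * s0 ^ 2 * l ^ (s0 - 1)) * l ^ R := by ring
            _ ≤ 2 ^ (q + 1) * l ^ R := Nat.mul_le_mul_right _ h7
            _ ≤ 2 ^ (q + 1) * (4 * κ * t * E * X.card) := Nat.mul_le_mul_left _ hXl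
            _ = _ := by ring
        exact Nat.le_of_mul_le_mul_left e4 (Nat.mul_pos (by positivity) hKE)
    have hα : 4 * R * V.card ≤ l ^ σ * X.card := by
      calc 4 * R * V.card ≤ 4 * R * (4 * κ * t * R * X.card) := Nat.mul_le_mul_left _ hXc
        _ = (16 * κ * t * R ^ 2) * X.card := by ring
        _ ≤ (32 * κ * t * R ^ 2) * X.card := by gcongr; norm_num
        _ ≤ _ := Nat.mul_le_mul_right _ h2
    have hW1 : 4 * g (s + q) * l ^ (R + q) ≤ (b i).card := by
      have e1 : (κ * E) * (4 * g (s + q) * l ^ (R + q)) ≤ (κ * E) * (b i).card := by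
        calc (κ * E) * (4 * g (s + q) * l ^ (R + q)) =
            (4 * κ * g (s + q) * l ^ q * E) * l ^ R := by rw [pow_add]; ring
          _ ≤ (4 * κ * g (s0 + q) * l ^ q * E) * l ^ R := by
              have := gm (show s + q ≤ s0 + q by omega)
              gcongr
          _ ≤ R * l ^ R := Nat.mul_le_mul_right _ h5
          _ ≤ E * V.card := hn
          _ ≤ E * (κ * (b i).card) := Nat.mul_le_mul_left _ hbi.1
          _ = _ := by ring
      exact Nat.le_of_mul_le_mul_left e1 (Nat.mul_pos hκ0 hE)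
    have hW2 : 16 * R * g σ * l ^ R ≤ K * (b i).card := by
      have e1 : (κ * E) * (16 * R * g σ * l ^ R) ≤ (κ * E) * (K * (b i).card) := by
        calc (κ * E) * (16 * R * g σ * l ^ R) = (16 * κ * g σ * E) * (R * l ^ R) := by ring
          _ ≤ K * (E * V.card) := Nat.mul_le_mul h6 hn
          _ ≤ K * (E * (κ * (b i).card)) := by gcongr; exact hbi.1
          _ = _ := by ring
      exact Nat.le_of_mul_le_mul_left e1 (Nat.mul_pos hκ0 hE)
    obtain ⟨h0, a, ha, X', hX', hX'c, hX'D⟩ := stage (g := g) (W := b i) (s := s) (q := q) (σ := σ)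
      (K := K) (by omega) hL hR hRec hg gm
      (fun x hx => (Finset.mem_inter.mp (hXZ hx)).1) hX0 ((hb1 i (by omega)).trans hZV)
      (Finset.card_pos.mp (by omega)) (fun x hx w hw => hord i le_rfl (by omega) x hx w hw)
      hDs hXD hbadX hα hW1 hW2 hK
    refine ⟨h0, a, ha, X', hX', ?_, hX'D⟩
    calc V.card ≤ κ * (b i).card := hbi.1
      _ ≤ κ * (2 * R * X'.card) := Nat.mul_le_mul_left _ hX'c
      _ = 2 * (κ * R * X'.card) := by ring
      _ ≤ (4 * t) * (κ * R * X'.card) := Nat.mul_le_mul_right _ (by omega)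
      _ = _ := by ring
  -- the induction
  have main : ∀ s : ℕ, ∀ i : ℕ, ∀ D X : Finset ℕ, s < s0 → i + s ≤ s0 + 1 → 2 ≤ i → D.card + s = R →
      X ⊆ Z → V.card ≤ 4 * κ * t * R * X.card → (∀ x ∈ X, ∃ u, P c V u x D) →
      (∀ j, i ≤ j → j < s0 + 2 → ∀ x ∈ X, ∀ y ∈ b j, x < y) → False := by
    intro s
    induction s with
    | zero =>
      intro i D X hs hi h2i hDs hXZ hXc hXD hord
      exact absurd (step 0 i D X hs hi h2i hDs hXZ hXc hXD hord).1 (by omega)
    | succ s ih =>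
      intro i D X hs hi h2i hDs hXZ hXc hXD hord
      obtain ⟨-, a, ha, X', hX'W, hX'c, hX'D⟩ := step (s + 1) i D X hs hi h2i hDs hXZ hXc hXD hord
      refine ih (i + 1) (insert a D) X' (by omega) (by omega) (by omega)
        (by rw [Finset.card_insert_of_notMem ha]; omega)
        (hX'W.trans (hb1 i (by omega))) hX'c hX'D ?_
      intro j hj hj2 x hx y hy
      exact hb3 i j (by omega) hj2 x (hX'W hx) y hy
  refine main s 2 D X hs (by omega) le_rfl hDs (hXV'.trans hV'Z) ?_ hXD ?_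
  · calc V.card ≤ (κ * t) * V'.card := hV'n
      _ ≤ (κ * t) * (4 * R * X.card) := Nat.mul_le_mul_left _ hXc
      _ = _ := by ring
  · intro j hj hj2 x hx y hy
    exact hb3 1 j (by omega) hj2 x (hV'2 (hXV' hx)) y hy

end Pool.Agent.TH780.FR
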