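import Mathlib

/-! Flashes and rainbows in edge-coloured ordered complete graphs (MP_f298ee_co): basic definitions.
`c i j` (used for `i < j` only) is the colour of the pair. -/

namespace Pool.Agent.TH780.FR

open Finset

/-- `P c V x y I`: there is a rainbow path in `V` from `x` to `y` whose set of colours is `I`. -/
inductive P (c : ℕ → ℕ → ℕ) (V : Finset ℕ) : ℕ → ℕ → Finset ℕ → Prop
  | nil {x : ℕ} (hx : x ∈ V) : P c V x x ∅
  | snoc {x y z : ℕ} {I : Finset ℕ} : P c V x y I → y < z → z ∈ V → c y z ∉ I →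
      P c V x z (insert (c y z) I)

/-- levels: for every colour `a` a function to `{0,…,l-1}` which increases along `a`-edges -/
structure Lev (c : ℕ → ℕ → ℕ) (V : Finset ℕ) (l : ℕ) (lam : ℕ → ℕ → ℕ) : Prop where
  lt : ∀ a, ∀ x ∈ V, lam a x < l
  mono : ∀ x ∈ V, ∀ y ∈ V, x < y → lam (c x y) x < lam (c x y) y

/-- all rainbow paths in `V` have at most `R` edges -/
def RB (c : ℕ → ℕ → ℕ) (V : Finset ℕ) (R : ℕ) : Prop := ∀ x y I, P c V x y I → I.card ≤ R

/-- the record property -/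
def Rec (c : ℕ → ℕ → ℕ) (V : Finset ℕ) (l R : ℕ) : Prop :=
  ∀ U ⊆ V, ∀ j ≤ R, RB c U j → U.card * l ^ (R - j) ≤ V.card

/-- no pair of `B` has a colour in `D` -/
def Free (c : ℕ → ℕ → ℕ) (B D : Finset ℕ) : Prop := ∀ x ∈ B, ∀ y ∈ B, x < y → c x y ∉ D

/-- the colours at `x` inside `B` -/
def Col (c : ℕ → ℕ → ℕ) (B : Finset ℕ) (x : ℕ) : Finset ℕ :=
  (B.filter (· < x)).image (fun y => c y x) ∪ (B.filter (x < ·)).image (fun y => c x y)

/-- the colours of pairs `y < x` -/
def InC (c : ℕ → ℕ → ℕ) (B : Finset ℕ) (x : ℕ) : Finset ℕ :=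
  (B.filter (· < x)).image (fun y => c y x)

/-- the colours of pairs `x < y` -/
def OutC (c : ℕ → ℕ → ℕ) (B : Finset ℕ) (x : ℕ) : Finset ℕ :=
  (B.filter (x < ·)).image (fun y => c x y)

/-- no two consecutive pairs of the same colour, colour in `D` -/
def TF (c : ℕ → ℕ → ℕ) (B D : Finset ℕ) : Prop :=
  ∀ x ∈ B, ∀ y ∈ B, ∀ z ∈ B, x < y → y < z → c x y ∈ D → c x y ≠ c y z

variable {c : ℕ → ℕ → ℕ} {V U B D : Finset ℕ} {x y z l R : ℕ} {I J : Finset ℕ} {lam : ℕ → ℕ → ℕ}

theorem mem_Col {a : ℕ} : a ∈ Col c B x ↔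
    (∃ y ∈ B, y < x ∧ c y x = a) ∨ (∃ y ∈ B, x < y ∧ c x y = a) := by
  simp [Col, and_assoc]

theorem mem_InC {a : ℕ} : a ∈ InC c B x ↔ ∃ y ∈ B, y < x ∧ c y x = a := by
  simp [InC, and_assoc]

theorem mem_OutC {a : ℕ} : a ∈ OutC c B x ↔ ∃ y ∈ B, x < y ∧ c x y = a := by
  simp [OutC, and_assoc]

theorem Col_eq : Col c B x = InC c B x ∪ OutC c B x := rfl

theorem Col_mono (h : U ⊆ V) : Col c U x ⊆ Col c V x := by
  intro a ha
  rw [mem_Col] at ha ⊢
  rcases ha with ⟨y, hy, h1⟩ | ⟨y, hy, h1⟩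
  · exact Or.inl ⟨y, h hy, h1⟩
  · exact Or.inr ⟨y, h hy, h1⟩

theorem InC_mono (h : U ⊆ V) : InC c U x ⊆ InC c V x := by
  intro a ha
  rw [mem_InC] at ha ⊢
  obtain ⟨y, hy, h1⟩ := ha
  exact ⟨y, h hy, h1⟩

theorem OutC_mono (h : U ⊆ V) : OutC c U x ⊆ OutC c V x := by
  intro a ha
  rw [mem_OutC] at ha ⊢
  obtain ⟨y, hy, h1⟩ := ha
  exact ⟨y, h hy, h1⟩

theorem P.left_mem (h : P c V x y I) : x ∈ V := by
  induction h with
  | nil hx => exact hx
  | snoc _ _ _ _ ih => exact ih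

theorem P.right_mem (h : P c V x y I) : y ∈ V := by
  cases h with
  | nil hx => exact hx
  | snoc _ _ hz _ => exact hz

theorem P.le (h : P c V x y I) : x ≤ y := by
  induction h with
  | nil hx => exact le_rfl
  | snoc _ h1 _ _ ih => omega

theorem P.mono (hUV : U ⊆ V) (h : P c U x y I) : P c V x y I := by
  induction h with
  | nil hx => exact P.nil (hUV hx)
  | snoc _ h1 h2 h3 ih => exact P.snoc ih h1 (hUV h2) h3

theorem P.single (hx : x ∈ V) (hy : y ∈ V) (hxy : x < y) : P c V x y {c x y} := by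
  have := P.snoc (P.nil (c := c) hx) hxy hy (by simp)
  simpa using this

theorem P.trans (h1 : P c V x y I) (h2 : P c V y z J) (hd : Disjoint I J) : P c V x z (I ∪ J) := by
  induction h2 with
  | nil hx => simpa using h1
  | snoc hp hlt hm hn ih =>
    rename_i y' z' J'
    have hd' : Disjoint I J' := Disjoint.mono_right (Finset.subset_insert _ _) hd
    have h4 : c y' z' ∉ I := by
      intro h5
      exact (Finset.disjoint_left.mp hd) h5 (Finset.mem_insert_self _ _)
    have h6 := P.snoc (ih hd') hlt hm (by simp [h4, hn])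
    rwa [Finset.union_insert]

/-- prepend an edge -/
theorem P.cons (hx : x ∈ V) (hxy : x < y) (h : P c V y z I) (hc : c x y ∉ I) :
    P c V x z (insert (c x y) I) := by
  have := P.trans (P.single (c := c) hx h.left_mem hxy) h (by simpa using hc)
  simpa using this

/-- every colour of a path is the colour of a pair of `V` -/
theorem P.col (h : P c V x y I) {a : ℕ} (ha : a ∈ I) : ∃ u ∈ V, ∃ v ∈ V, u < v ∧ c u v = a := by
  induction h with
  | nil hx => simp at ha
  | snoc hp hlt hm hn ih =>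
    rename_i y' z' J'
    rw [Finset.mem_insert] at ha
    rcases ha with rfl | ha
    · exact ⟨y', hp.right_mem, z', hm, hlt, rfl⟩
    · exact ih ha

theorem P.disj_of_free (h : P c B x y I) (hF : Free c B D) : Disjoint I D := by
  rw [Finset.disjoint_left]
  intro a ha hD
  obtain ⟨u, hu, v, hv, huv, rfl⟩ := h.col ha
  exact hF u hu v hv huv hD

theorem P.subset_of_col (h : P c B x y I) (hC : ∀ u ∈ B, ∀ v ∈ B, u < v → c u v ∈ D) : I ⊆ D := by
  intro a ha
  obtain ⟨u, hu, v, hv, huv, rfl⟩ := h.col ha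
  exact hC u hu v hv huv

theorem RB.mono (h : RB c V R) (hUV : U ⊆ V) : RB c U R := fun x y I hp => h x y I (hp.mono hUV)

theorem Lev.sub (h : Lev c V l lam) (hUV : U ⊆ V) : Lev c U l lam :=
  ⟨fun a x hx => h.lt a x (hUV hx), fun x hx y hy => h.mono x (hUV hx) y (hUV hy)⟩

theorem Free.sub (h : Free c V D) (hUV : U ⊆ V) : Free c U D :=
  fun x hx y hy => h x (hUV hx) y (hUV hy)

theorem TF.sub (h : TF c V D) (hUV : U ⊆ V) : TF c U D :=
  fun x hx y hy z hz => h x (hUV hx) y (hUV hy) z (hUV hz)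

/-- bound for a path to `x` followed by a path from `x` -/
theorem RB.two (h : RB c V R) (h1 : P c V x y I) (h2 : P c V y z J) (hd : Disjoint I J) :
    I.card + J.card ≤ R := by
  have := h _ _ _ (h1.trans h2 hd)
  rwa [Finset.card_union_of_disjoint hd] at this

/-- dropping edges at the end: a path with at least `k` edges contains a path from the same
start with exactly `k` edges -/
theorem P.take (h : P c V x y I) {k : ℕ} (hk : k ≤ I.card) :
    ∃ y' J, P c V x y' J ∧ J ⊆ I ∧ J.card = k ∧ y' ≤ y := by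
  induction h with
  | nil hx =>
    simp at hk
    exact ⟨_, ∅, P.nil hx, by simp, by simp [hk], le_rfl⟩
  | snoc hp hlt hm hn ih =>
    rename_i y' z' J'
    rw [Finset.card_insert_of_notMem hn] at hk
    rcases Nat.lt_or_ge J'.card k with h1 | h1
    · have h2 : k = J'.card + 1 := by omega
      exact ⟨z', _, P.snoc hp hlt hm hn, by simp, by rw [Finset.card_insert_of_notMem hn]; omega, le_rfl⟩
    · obtain ⟨w, J, h3, h4, h5, h6⟩ := ih h1
      exact ⟨w, J, h3, h4.trans (Finset.subset_insert _ _), h5, by omega⟩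

open Classical in
/-- ends of rainbow paths with `R` edges -/
noncomputable def Hin (c : ℕ → ℕ → ℕ) (V : Finset ℕ) (R : ℕ) : Finset ℕ :=
  V.filter (fun x => ∃ u I, P c V u x I ∧ I.card = R)

open Classical in
/-- starts of rainbow paths with `R` edges -/
noncomputable def Hout (c : ℕ → ℕ → ℕ) (V : Finset ℕ) (R : ℕ) : Finset ℕ :=
  V.filter (fun x => ∃ u I, P c V x u I ∧ I.card = R)

theorem mem_Hin : x ∈ Hin c V R ↔ x ∈ V ∧ ∃ u I, P c V u x I ∧ I.card = R := by
  classical
  simp [Hin]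

theorem mem_Hout : x ∈ Hout c V R ↔ x ∈ V ∧ ∃ u I, P c V x u I ∧ I.card = R := by
  classical
  simp [Hout]

theorem Hin_sub : Hin c V R ⊆ V := fun _ hx => (mem_Hin.mp hx).1

theorem Hout_sub : Hout c V R ⊆ V := fun _ hx => (mem_Hout.mp hx).1

end Pool.Agent.TH780.FR
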