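import Pool.Agent.TH780.FR.Main
import Pool.Agent.TH226.FR.Bridge

/-! The final form of the bound for MP_f298ee_co, in the words of the problem. -/

namespace Pool.Agent.TH780.FR

open Finset Filter

/-- an `l`-flash: `x 0 < x 1 < ... < x l` such that all the pairs `x i, x (i+1)` have the same colour -/
def HasFlash' {n : ℕ} (c : Sym2 (Fin n) → ℕ) (l : ℕ) : Prop :=
  ∃ x : Fin (l + 1) → Fin n, StrictMono x ∧
    ∀ i j : Fin l, c s(x i.castSucc, x i.succ) = c s(x j.castSucc, x j.succ)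

/-- a `k`-rainbow: `y 0 < y 1 < ... < y k` such that the pairs `y i, y (i+1)` have different colours -/
def HasRainbow' {n : ℕ} (c : Sym2 (Fin n) → ℕ) (k : ℕ) : Prop :=
  ∃ y : Fin (k + 1) → Fin n, StrictMono y ∧
    ∀ i j : Fin k, i ≠ j → c s(y i.castSucc, y i.succ) ≠ c s(y j.castSucc, y j.succ)

/-- the colouring of the pairs of natural numbers -/
def toNat {n : ℕ} (c : Sym2 (Fin n) → ℕ) (i j : ℕ) : ℕ :=
  if h : i < n ∧ j < n then c s(⟨i, h.1⟩, ⟨j, h.2⟩) else 0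

theorem toNat_eq {n : ℕ} (c : Sym2 (Fin n) → ℕ) (i j : ℕ) (hi : i < n) (hj : j < n) :
    toNat c i j = c s(⟨i, hi⟩, ⟨j, hj⟩) := by
  simp [toNat, hi, hj]

theorem strictMono_of_lt {n m : ℕ} {s : ℕ → ℕ} (hs : ∀ i ≤ m, s i < n)
    (hlt : ∀ i < m, s i < s (i + 1)) :
    StrictMono (fun i : Fin (m + 1) => (⟨s i, hs i (by omega)⟩ : Fin n)) := by
  rw [Fin.strictMono_iff_lt_succ]
  intro i
  show s (i.castSucc : ℕ) < s (i.succ : ℕ)
  simpa using hlt i i.2

/-- a colouring without `l`-flash and without `k`-rainbow gives levels and `RB` -/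
theorem to_lev {n l k : ℕ} (hl : 1 ≤ l) (hk : 1 ≤ k) (c : Sym2 (Fin n) → ℕ) (h1 : ¬ HasFlash' c l)
    (h2 : ¬ HasRainbow' c k) :
    ∃ lam, Lev (toNat c) (Finset.range n) l lam ∧ RB (toNat c) (Finset.range n) (k - 1) := by
  obtain ⟨lam, hlam⟩ := Pool.Agent.TH226.FR.lev_of_no_flash (c := toNat c) (V := Finset.range n) hl
    (by
      rintro ⟨a, s, hV, hlt, hc⟩
      apply h1
      have hV' : ∀ i ≤ l, s i < n := fun i hi => by simpa using hV i hi
      refine ⟨_, strictMono_of_lt hV' hlt, ?_⟩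
      have key : ∀ i : Fin l, c s((⟨s (i.castSucc : ℕ), hV' _ (by simp)⟩ : Fin n),
          ⟨s (i.succ : ℕ), hV' _ (by simp)⟩) = a := by
        intro i
        have := hc i i.2
        rw [toNat_eq c _ _ (hV' i (by omega)) (hV' (i + 1) (by omega))] at this
        simpa using this
      intro i j
      exact (key i).trans (key j).symm)
  refine ⟨lam, hlam, ?_⟩
  apply Pool.Agent.TH226.FR.rb_of_no_rainbow hk
  rintro ⟨s, hV, hlt, hc⟩
  apply h2
  have hV' : ∀ i ≤ k, s i < n := fun i hi => by simpa using hV i hi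
  refine ⟨_, strictMono_of_lt hV' hlt, ?_⟩
  have key : ∀ i : Fin k, c s((⟨s (i.castSucc : ℕ), hV' _ (by simp)⟩ : Fin n),
      ⟨s (i.succ : ℕ), hV' _ (by simp)⟩) = toNat c (s i) (s (i + 1)) := by
    intro i
    rw [toNat_eq c _ _ (hV' i (by omega)) (hV' (i + 1) (by omega))]
    simp
  intro i j hij
  have h3 := hc i i.2 j j.2 (fun h => hij (Fin.ext h))
  intro h4
  exact h3 ((key i).symm.trans (h4.trans (key j)))

/-- every colouring on more than `N` points has an `l`-flash or a `k`-rainbow -/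
def Forces' (l k N : ℕ) : Prop := ∀ n > N, ∀ c : Sym2 (Fin n) → ℕ, HasFlash' c l ∨ HasRainbow' c k

/-- the flash-rainbow number -/
noncomputable def f' (l k : ℕ) : ℕ := sInf {N | Forces' l k N}

theorem forces_fact {l k : ℕ} (hl : 1 ≤ l) (hk : 1 ≤ k) :
    Forces' l k ((k + 1).factorial * l ^ (k - 1)) := by
  intro n hn c
  by_contra hcon
  rw [not_or] at hcon
  obtain ⟨lam, h1, h2⟩ := to_lev hl hk c hcon.1 hcon.2
  have h3 := trivial_bound hl h1 h2
  rw [Finset.card_range, show k - 1 + 2 = k + 1 by omega] at h3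
  omega

theorem forces_f {l k : ℕ} (hl : 1 ≤ l) (hk : 1 ≤ k) : Forces' l k (f' l k) :=
  Nat.sInf_mem (s := {N | Forces' l k N}) ⟨_, forces_fact hl hk⟩

theorem f_le_fact {l k : ℕ} (hl : 1 ≤ l) (hk : 1 ≤ k) :
    f' l k ≤ (k + 1).factorial * l ^ (k - 1) := Nat.sInf_le (forces_fact hl hk)

/-- `f l k` is attained by a colouring -/
theorem exists_avoid {l k : ℕ} (hl : 1 ≤ l) (hk : 1 ≤ k) (h0 : 0 < f' l k) :
    ∃ n lam, f' l k ≤ n ∧ ∃ c, Lev c (Finset.range n) l lam ∧ RB c (Finset.range n) (k - 1) := by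
  have h1 : ¬ Forces' l k (f' l k - 1) := by
    intro h
    have : f' l k ≤ f' l k - 1 := Nat.sInf_le h
    omega
  unfold Forces' at h1
  push Not at h1
  obtain ⟨n, hn, c, h2, h3⟩ := h1
  obtain ⟨lam, h4, h5⟩ := to_lev hl hk c h2 h3
  exact ⟨n, lam, by omega, toNat c, h4, h5⟩

/-- for every `E` and all large `k`: `E f(l, k) ≤ k l ^ (k - 1)` for all `l ≥ 1` -/
theorem f_small (E : ℕ) : ∃ K0 : ℕ, ∀ k ≥ K0, ∀ l ≥ 1, E * f' l k ≤ k * l ^ (k - 1) := by
  obtain ⟨K0, hK0⟩ := main_bound E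
  refine ⟨K0 + E + 1, fun k hk l hl => ?_⟩
  rcases Nat.eq_zero_or_pos (f' l k) with h0 | h0
  · rw [h0]; simp
  obtain ⟨n, lam, hn, c, hL, hR⟩ := exists_avoid hl (by omega : 1 ≤ k) h0
  have h1 : E * n ≤ (k - 1) * l ^ (k - 1) := by
    rcases Nat.lt_or_ge l 3 with h2 | h2
    · have := Pool.Agent.TH226.FR.small_l (E := E) (R := k - 1) (by omega) hl (by omega) hL hR
      rwa [Finset.card_range] at this
    · have := hK0 (k - 1) (by omega) l h2 c _ lam hL hR
      rwa [Finset.card_range] at this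
  calc E * f' l k ≤ E * n := Nat.mul_le_mul_left _ hn
    _ ≤ (k - 1) * l ^ (k - 1) := h1
    _ ≤ k * l ^ (k - 1) := Nat.mul_le_mul_right _ (by omega)

/-- Q1 -/
theorem final : (∀ l k : ℕ, 1 ≤ l → 1 ≤ k → Forces' l k (f' l k)) ∧
    ∃ φ : ℕ → ℝ, Tendsto (fun k : ℕ => φ k / k) atTop (nhds 0) ∧
      ∀ l k : ℕ, 1 ≤ l → 1 ≤ k → (f' l k : ℝ) ≤ φ k * (l : ℝ) ^ (k - 1) := by
  refine ⟨fun l k hl hk => forces_f hl hk, ?_⟩
  -- `φ k = M(k)`
  set φ : ℕ → ℝ := fun k => ⨆ l : ℕ, (f' (l + 1) k : ℝ) / ((l + 1 : ℕ) : ℝ) ^ (k - 1) with hφ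
  have hbdd : ∀ k, 1 ≤ k →
      BddAbove (Set.range (fun l : ℕ => (f' (l + 1) k : ℝ) / ((l + 1 : ℕ) : ℝ) ^ (k - 1))) := by
    intro k hk
    refine ⟨((k + 1).factorial : ℝ), ?_⟩
    rintro _ ⟨l, rfl⟩
    show (f' (l + 1) k : ℝ) / ((l + 1 : ℕ) : ℝ) ^ (k - 1) ≤ _
    rw [div_le_iff₀ (by positivity)]
    exact_mod_cast f_le_fact (l := l + 1) (k := k) (by omega) hk
  refine ⟨φ, ?_, ?_⟩
  · rw [Metric.tendsto_atTop]
    intro ε hε
    obtain ⟨E, hE⟩ := exists_nat_gt (1 / ε)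
    obtain ⟨K0, hK0⟩ := f_small E
    have hEpos : (0 : ℝ) < E := lt_trans (by positivity) hE
    refine ⟨K0 + 1, fun k hk => ?_⟩
    have hk0 : (0 : ℝ) < k := by
      have : 0 < k := by omega
      exact_mod_cast this
    have h1 : 0 ≤ φ k := Real.iSup_nonneg (fun l => by positivity)
    have h2 : φ k ≤ k / E := by
      apply Real.iSup_le _ (by positivity)
      intro l
      rw [div_le_iff₀ (by positivity), div_mul_eq_mul_div, le_div_iff₀ hEpos]
      have := hK0 k (by omega) (l + 1) (by omega)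
      calc (f' (l + 1) k : ℝ) * E = ((E * f' (l + 1) k : ℕ) : ℝ) := by push_cast; ring
        _ ≤ ((k * (l + 1) ^ (k - 1) : ℕ) : ℝ) := by exact_mod_cast this
        _ = _ := by push_cast; ring
    rw [Real.dist_eq, sub_zero, abs_of_nonneg (by positivity), div_lt_iff₀ hk0]
    refine lt_of_le_of_lt h2 ?_
    rw [div_lt_iff₀ hEpos]
    have h3 : 1 < ε * E := by
      rw [div_lt_iff₀ hε] at hE
      linarith
    nlinarith
  · intro l k hl hk
    have h1 : (f' l k : ℝ) / (l : ℝ) ^ (k - 1) ≤ φ k := by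
      have := le_ciSup (hbdd k hk) (l - 1)
      have h2 : l - 1 + 1 = l := by omega
      simp only [h2] at this
      exact this
    have hl0 : (0 : ℝ) < l := by exact_mod_cast hl
    rwa [div_le_iff₀ (by positivity)] at h1

end Pool.Agent.TH780.FR
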