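import Pool.Agent.TH780.FR.Core
import Pool.Agent.TH911.FR.Main

/-! The quantitative main bound (J18) for MP_f298ee_co. -/

namespace Pool.Agent.TH780.FR

/-- for `l ≥ 3` and every `E`, if `R` is large then a set with levels below `l` and without
rainbow paths with more than `R` edges has at most `(R / E) l ^ R` elements -/
theorem main_bound (E : ℕ) : ∃ K0 : ℕ, ∀ R ≥ K0, ∀ l ≥ 3, ∀ (c : ℕ → ℕ → ℕ) (V : Finset ℕ)
    (lam : ℕ → ℕ → ℕ), Lev c V l lam → RB c V R → E * V.card ≤ R * l ^ R :=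
  Pool.Agent.TH911.FR.main_bound_of (fun h => exists_record h) ap_bound
    (fun hl hL hR hRec h2R _ hg gm _ _ _ _ _ _ _ hn _ hκ ht0 hs0 hK h1 h2 h3 h4 h5 h6 h7 =>
      core hl hL hR hRec h2R hg gm hn hκ ht0 hs0 hK h1 h2 h3 h4 h5 h6 h7) E

end Pool.Agent.TH780.FR
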