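import Pool.Agent.TH195.FR.J
import Pool.Agent.TH911.FR.E

/-! One stage of the descent (J13) and the blocks (J14) of the plan for MP_f298ee_co. -/
namespace Pool.Agent.TH780.FR
open Finset
variable {c : ℕ → ℕ → ℕ} {V U B D : Finset ℕ} {x y z l R : ℕ} {I J : Finset ℕ} {lam : ℕ → ℕ → ℕ}

/-- choice of a vertex with few bad colours -/
theorem choose_x (hl : 1 ≤ l) (hL : Lev c V l lam) (hRec : Rec c V l R) {X : Finset ℕ}
    {q σ K : ℕ} (hXV : X ⊆ V) (hX0 : X.Nonempty) (hDR : D.card ≤ R)
    (hbad : ∀ a ∈ D, ∀ B ⊆ X,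
      (∀ x ∈ B, ∀ u I, P c V u x I → I ⊆ D.erase a → I.card + 2 + q ≤ D.card) →
      B.card * K ≤ X.card)
    (hα : 4 * R * V.card ≤ l ^ σ * X.card) :
    ∃ x ∈ X, (∀ a ∈ D, ∃ u I, P c V u x I ∧ a ∉ I ∧ R ≤ I.card + σ) ∧ ∃ N ⊆ D, N.card * K ≤ 2 * R ∧
      ∀ a ∈ D, a ∉ N → ∃ u I, P c V u x I ∧ I ⊆ D.erase a ∧ D.card ≤ I.card + 1 + q := by
  classical
  have hlσ : 0 < l ^ σ := Nat.pow_pos hl
  have hXpos : 0 < X.card := Finset.card_pos.mpr hX0
  set S1 := X.filter (fun x => ∃ a ∈ D, ∀ u I, P c V u x I → a ∉ I → I.card + 1 + σ ≤ R) with hS1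
  have h1 : S1.card * l ^ σ ≤ D.card * V.card := by
    have h2 : S1.card ≤ ∑ a ∈ D,
        (X.filter (fun x => ∀ u I, P c V u x I → a ∉ I → I.card + 1 + σ ≤ R)).card := by
      have h3 : S1 ⊆ D.biUnion
          (fun a => X.filter (fun x => ∀ u I, P c V u x I → a ∉ I → I.card + 1 + σ ≤ R)) := by
        intro x hx
        rw [hS1, Finset.mem_filter] at hx
        obtain ⟨hx, a, ha, h⟩ := hx
        rw [Finset.mem_biUnion]
        exact ⟨a, ha, by rw [Finset.mem_filter]; exact ⟨hx, h⟩⟩
      exact (Finset.card_le_card h3).trans Finset.card_biUnion_le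
    calc S1.card * l ^ σ ≤ (∑ a ∈ D,
          (X.filter (fun x => ∀ u I, P c V u x I → a ∉ I → I.card + 1 + σ ≤ R)).card) * l ^ σ :=
          Nat.mul_le_mul_right _ h2
      _ = ∑ a ∈ D, (X.filter (fun x => ∀ u I, P c V u x I → a ∉ I → I.card + 1 + σ ≤ R)).card *
          l ^ σ := Finset.sum_mul _ _ _
      _ ≤ ∑ a ∈ D, V.card := by
          apply Finset.sum_le_sum
          intro a _
          exact few_in hl hL hRec a σ ((Finset.filter_subset _ _).trans hXV)
            (fun x hx => (Finset.mem_filter.mp hx).2)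
      _ = D.card * V.card := by simp
  have h4 : 4 * S1.card ≤ X.card := by
    have h6 : 4 * S1.card * l ^ σ ≤ X.card * l ^ σ := by
      calc 4 * S1.card * l ^ σ = 4 * (S1.card * l ^ σ) := by ring
        _ ≤ 4 * (D.card * V.card) := Nat.mul_le_mul_left _ h1
        _ ≤ 4 * (R * V.card) := by gcongr
        _ = 4 * R * V.card := by ring
        _ ≤ l ^ σ * X.card := hα
        _ = X.card * l ^ σ := by ring
    exact Nat.le_of_mul_le_mul_right h6 hlσ
  set X' := X \ S1 with hX'
  have hS1X : S1 ⊆ X := Finset.filter_subset _ _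
  have h7 : X'.card = X.card - S1.card := Finset.card_sdiff_of_subset hS1X
  have h8 : 3 * X.card ≤ 4 * X'.card := by omega
  have h9 : 0 < X'.card := by omega
  set Bd : ℕ → ℕ → Prop := fun e x => ∀ u I, P c V u x I → I ⊆ D.erase e → I.card + 2 + q ≤ D.card
    with hBd
  have hex : ∃ x ∈ X', (D.filter (fun e => Bd e x)).card * K ≤ 2 * R := by
    by_contra hcon
    push Not at hcon
    have h11 : 2 * R * X'.card < (∑ x ∈ X', (D.filter (fun e => Bd e x)).card) * K := by
      rw [Finset.sum_mul]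
      calc 2 * R * X'.card = ∑ x ∈ X', 2 * R := by simp [mul_comm]
        _ < ∑ x ∈ X', (D.filter (fun e => Bd e x)).card * K :=
          Finset.sum_lt_sum_of_nonempty (Finset.card_pos.mp h9) hcon
    have h12 : (∑ x ∈ X', (D.filter (fun e => Bd e x)).card) =
        ∑ e ∈ D, (X'.filter (fun x => Bd e x)).card := by
      simp_rw [Finset.card_filter]
      exact Finset.sum_comm
    have h13 : (∑ x ∈ X', (D.filter (fun e => Bd e x)).card) * K ≤ D.card * X.card := by
      rw [h12, Finset.sum_mul]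
      calc ∑ e ∈ D, (X'.filter (fun x => Bd e x)).card * K ≤ ∑ e ∈ D, X.card := by
            apply Finset.sum_le_sum
            intro e he
            exact hbad e he _ ((Finset.filter_subset _ _).trans Finset.sdiff_subset)
              (fun x hx => (Finset.mem_filter.mp hx).2)
        _ = D.card * X.card := by simp
    have h14 : D.card * X.card ≤ R * X.card := Nat.mul_le_mul_right _ hDR
    nlinarith
  obtain ⟨x, hx, hxK⟩ := hex
  rw [hX', Finset.mem_sdiff] at hx
  refine ⟨x, hx.1, ?_, D.filter (fun e => Bd e x), Finset.filter_subset _ _, hxK, ?_⟩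
  · intro a ha
    by_contra hno
    push Not at hno
    apply hx.2
    rw [hS1, Finset.mem_filter]
    refine ⟨hx.1, a, ha, ?_⟩
    intro u I hp haI
    have := hno u I hp haI
    omega
  · intro a ha haN
    rw [Finset.mem_filter] at haN
    have : ¬ Bd a x := fun h => haN ⟨ha, h⟩
    simp only [hBd] at this
    push Not at this
    obtain ⟨u, I, h1, h2, h3⟩ := this
    exact ⟨u, I, h1, h2, by omega⟩

/-- J13 one stage -/
theorem stage (hl : 2 ≤ l) (hL : Lev c V l lam) (hR : RB c V R) (hRec : Rec c V l R)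
    {g : ℕ → ℕ} (hg : ∀ U ⊆ V, ∀ j, RB c U j → U.card ≤ g j * l ^ j) (gm : Monotone g)
    {X W : Finset ℕ} {s q σ K : ℕ} (hX : X ⊆ Hin c V R) (hX0 : X.Nonempty) (hW : W ⊆ V)
    (hW0 : W.Nonempty) (hXW : ∀ x ∈ X, ∀ w ∈ W, x < w)
    (hDs : D.card + s = R) (hXD : ∀ x ∈ X, ∃ u, P c V u x D)
    (hbad : ∀ a ∈ D, ∀ B ⊆ X,
      (∀ x ∈ B, ∀ u I, P c V u x I → I ⊆ D.erase a → I.card + 2 + q ≤ D.card) →
      B.card * K ≤ X.card)
    (hα : 4 * R * V.card ≤ l ^ σ * X.card)
    (hW1 : 4 * g (s + q) * l ^ (R + q) ≤ W.card)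
    (hW2 : 16 * R * g σ * l ^ R ≤ K * W.card) (hK : 0 < K) :
    0 < s ∧ ∃ a, a ∉ D ∧ ∃ X' ⊆ W, W.card ≤ 2 * R * X'.card ∧
      ∀ x ∈ X', ∃ u, P c V u x (insert a D) := by
  classical
  have hl1 : 1 ≤ l := by omega
  have hXV : X ⊆ V := hX.trans Hin_sub
  have hWpos : 0 < W.card := Finset.card_pos.mpr hW0
  have hR0 : 0 < R := by
    obtain ⟨x, hx⟩ := hX0
    obtain ⟨w, hw⟩ := hW0
    have := hR _ _ _ (P.single (hXV hx) (hW hw) (hXW x hx w hw))
    rw [Finset.card_singleton] at this
    omega
  obtain ⟨x, hx, hxσ, N, hND, hNK, hxq⟩ := choose_x hl1 hL hRec hXV hX0 (by omega) hbad hα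
  have hout : (OutC c V x).card ≤ R := outC_card hR (hX hx)
  -- (i)
  set W1 := W.filter (fun w => c x w ∈ D ∧ c x w ∉ N) with hW1d
  set W2 := W.filter (fun w => c x w ∈ N) with hW2d
  set W3 := W.filter (fun w => c x w ∉ D) with hW3d
  have hcov : W ⊆ W1 ∪ (W2 ∪ W3) := by
    intro w hw
    by_cases h1 : c x w ∈ D
    · by_cases h2 : c x w ∈ N
      · simp [hW2d, hw, h2]
      · simp [hW1d, hw, h1, h2]
    · simp [hW3d, hw, h1]
  have hcard := (Finset.card_le_card hcov).trans ((Finset.card_union_le _ _).trans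
    (Nat.add_le_add_left (Finset.card_union_le _ _) _))
  have b1 : 4 * W1.card ≤ W.card := by
    have e1 := card_WD (U := W1) (q := q) hl1 hL hR hg hDs ((Finset.filter_subset _ _).trans hW) (by
      intro w hw
      rw [hW1d, Finset.mem_filter] at hw
      obtain ⟨hw, hwD, hwN⟩ := hw
      obtain ⟨u, I, h1, h2, h3⟩ := hxq _ hwD hwN
      have h4 : c x w ∉ I := fun h => (Finset.notMem_erase _ _) (h2 h)
      refine ⟨u, insert (c x w) I, P.snoc h1 (hXW x hx w hw) (hW hw) h4, ?_, ?_⟩
      · intro e he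
        rw [Finset.mem_insert] at he
        rcases he with rfl | he
        · exact hwD
        · exact Finset.mem_of_mem_erase (h2 he)
      · rw [Finset.card_insert_of_notMem h4]; omega)
    calc 4 * W1.card ≤ 4 * (g (s + q) * l ^ (R + q)) := Nat.mul_le_mul_left _ e1
      _ = 4 * g (s + q) * l ^ (R + q) := by ring
      _ ≤ W.card := hW1
  have b2 : 8 * W2.card ≤ W.card := by
    have e1 : ∀ a ∈ N, (W.filter (fun w => c x w = a)).card ≤ g σ * l ^ R := by
      intro a ha
      obtain ⟨u, I, h1, h2, h3⟩ := hxσ a (hND ha)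
      rcases (W.filter (fun w => c x w = a)).eq_empty_or_nonempty with h0 | ⟨w0, hw0⟩
      · simp [h0]
      rw [Finset.mem_filter] at hw0
      have h5 := hR _ _ _ (P.snoc h1 (hXW x hx w0 hw0.1) (hW hw0.1) (by rw [hw0.2]; exact h2))
      rw [hw0.2, Finset.card_insert_of_notMem h2] at h5
      have e2 := card_VD (U := W.filter (fun w => c x w = a)) (D := insert a I)
        (s := R - (I.card + 1)) hl1 hL hR hg
        (by rw [Finset.card_insert_of_notMem h2]; omega)
        ((Finset.filter_subset _ _).trans hW) (by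
          intro w hw
          rw [Finset.mem_filter] at hw
          refine ⟨u, ?_⟩
          have := P.snoc h1 (hXW x hx w hw.1) (hW hw.1) (by rw [hw.2]; exact h2)
          rwa [hw.2] at this)
      exact e2.trans (Nat.mul_le_mul_right _ (gm (by omega)))
    have e2 : W2.card ≤ N.card * (g σ * l ^ R) := by
      have e3 : W2 ⊆ N.biUnion (fun a => W.filter (fun w => c x w = a)) := by
        intro w hw
        rw [hW2d, Finset.mem_filter] at hw
        rw [Finset.mem_biUnion]
        exact ⟨c x w, hw.2, by rw [Finset.mem_filter]; exact ⟨hw.1, rfl⟩⟩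
      calc W2.card ≤ _ := Finset.card_le_card e3
        _ ≤ ∑ a ∈ N, (W.filter (fun w => c x w = a)).card := Finset.card_biUnion_le
        _ ≤ ∑ a ∈ N, g σ * l ^ R := Finset.sum_le_sum e1
        _ = _ := by simp
    have e4 : K * (8 * W2.card) ≤ K * W.card := by
      calc K * (8 * W2.card) ≤ K * (8 * (N.card * (g σ * l ^ R))) := by gcongr
        _ = 8 * (N.card * K) * (g σ * l ^ R) := by ring
        _ ≤ 8 * (2 * R) * (g σ * l ^ R) := by gcongr
        _ = 16 * R * g σ * l ^ R := by ring
        _ ≤ K * W.card := hW2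
    exact Nat.le_of_mul_le_mul_left e4 hK
  have b3 : W.card ≤ 2 * W3.card := by omega
  have hW3pos : 0 < W3.card := by omega
  -- pigeonhole over the out-colours
  have hpig : ∃ a ∈ (OutC c V x).filter (fun a => a ∉ D),
      W3.card ≤ R * (W3.filter (fun w => c x w = a)).card := by
    by_contra hcon
    push Not at hcon
    have e1 : W3.card = ∑ a ∈ (OutC c V x).filter (fun a => a ∉ D),
        (W3.filter (fun w => c x w = a)).card := by
      apply Finset.card_eq_sum_card_fiberwise
      intro w hw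
      have hw' : w ∈ W ∧ c x w ∉ D := by
        have := hw
        rw [hW3d] at this
        simpa using this
      rw [Finset.mem_coe, Finset.mem_filter]
      exact ⟨mem_OutC.mpr ⟨w, hW hw'.1, hXW x hx w hw'.1, rfl⟩, hw'.2⟩
    have e2 : ((OutC c V x).filter (fun a => a ∉ D)).card ≤ R :=
      (Finset.card_le_card (Finset.filter_subset _ _)).trans hout
    have hne : ((OutC c V x).filter (fun a => a ∉ D)).Nonempty := by
      rw [Finset.nonempty_iff_ne_empty]
      intro h
      rw [h, Finset.sum_empty] at e1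
      omega
    have e3 : R * W3.card < R * W3.card := by
      calc R * W3.card = ∑ a ∈ (OutC c V x).filter (fun a => a ∉ D),
          R * (W3.filter (fun w => c x w = a)).card := by rw [← Finset.mul_sum, ← e1]
        _ < ∑ a ∈ (OutC c V x).filter (fun a => a ∉ D), W3.card :=
          Finset.sum_lt_sum_of_nonempty hne hcon
        _ = ((OutC c V x).filter (fun a => a ∉ D)).card * W3.card := by simp
        _ ≤ R * W3.card := Nat.mul_le_mul_right _ e2
    exact absurd e3 (lt_irrefl _)
  obtain ⟨a, ha, haR⟩ := hpig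
  rw [Finset.mem_filter] at ha
  obtain ⟨u, hu⟩ := hXD x hx
  have hpath : ∀ w ∈ W3.filter (fun w => c x w = a), P c V u w (insert a D) := by
    intro w hw
    rw [Finset.mem_filter, hW3d, Finset.mem_filter] at hw
    have := P.snoc hu (hXW x hx w hw.1.1) (hW hw.1.1) (by rw [hw.2]; exact ha.2)
    rwa [hw.2] at this
  refine ⟨?_, a, ha.2, W3.filter (fun w => c x w = a), ?_, ?_, fun w hw => ⟨u, hpath w hw⟩⟩
  · have hne : (W3.filter (fun w => c x w = a)).Nonempty := by
      rw [← Finset.card_pos]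
      rcases Nat.eq_zero_or_pos (W3.filter (fun w => c x w = a)).card with h | h
      · rw [h] at haR; omega
      · exact h
    obtain ⟨w, hw⟩ := hne
    have := hR _ _ _ (hpath w hw)
    rw [Finset.card_insert_of_notMem ha.2] at this
    omega
  · exact (Finset.filter_subset _ _).trans (Finset.filter_subset _ _)
  · calc W.card ≤ 2 * W3.card := b3
      _ ≤ 2 * (R * (W3.filter (fun w => c x w = a)).card) := Nat.mul_le_mul_left _ haR
      _ = _ := by ring

/-- J14 blocks -/
theorem exists_blocks (Z : Finset ℕ) (m : ℕ) (_hm : 1 ≤ m) :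
    ∃ b : ℕ → Finset ℕ, (∀ i < m, b i ⊆ Z) ∧ (∀ i < m, (b i).card = Z.card / m) ∧
      ∀ i j, i < j → j < m → ∀ x ∈ b i, ∀ y ∈ b j, x < y := by
  classical
  have key : ∀ (w m : ℕ) (Z : Finset ℕ), m * w ≤ Z.card →
      ∃ b : ℕ → Finset ℕ, (∀ i < m, b i ⊆ Z) ∧ (∀ i < m, (b i).card = w) ∧
      ∀ i j, i < j → j < m → ∀ x ∈ b i, ∀ y ∈ b j, x < y := by
    intro w m
    induction m with
    | zero => intro Z _; exact ⟨fun _ => ∅, by simp, by simp, by simp⟩
    | succ m ih =>
      intro Z hZ
      obtain ⟨W, hW, hWc, hlt⟩ := Pool.Agent.TH911.FR.first_block Z w (by nlinarith)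
      obtain ⟨b, h1, h2, h3⟩ := ih (Z \ W) (by
        rw [Finset.card_sdiff_of_subset hW]
        have : (m + 1) * w = m * w + w := by ring
        omega)
      refine ⟨fun i => if i = 0 then W else b (i - 1), ?_, ?_, ?_⟩
      · intro i hi
        rcases Nat.eq_zero_or_pos i with rfl | h0
        · simpa using hW
        · simp only [show i ≠ 0 by omega, if_false]
          exact (h1 (i - 1) (by omega)).trans Finset.sdiff_subset
      · intro i hi
        rcases Nat.eq_zero_or_pos i with rfl | h0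
        · simpa using hWc
        · simp only [show i ≠ 0 by omega, if_false]
          exact h2 (i - 1) (by omega)
      · intro i j hij hj x hx y hy
        simp only [show j ≠ 0 by omega, if_false] at hy
        rcases Nat.eq_zero_or_pos i with rfl | h0
        · simp only [if_true] at hx
          exact hlt x hx y (h1 (j - 1) (by omega) hy)
        · simp only [show i ≠ 0 by omega, if_false] at hx
          exact h3 (i - 1) (j - 1) (by omega) (by omega) x hx y hy
  exact key (Z.card / m) m Z (Nat.mul_div_le _ _)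

end Pool.Agent.TH780.FR
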