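import Pool.Agent.TH780.FR.Final

/-! The case `l = 3` with a power saving: choice of the parameters. -/

namespace Pool.Agent.TH780.FR

open Finset

theorem z_ineq3 (z : ℕ) (hz : 20 ≤ z) : 6 * (200 * z) ≤ 2 ^ (z - 1) := by
  induction z, hz using Nat.le_induction with
  | base => norm_num
  | succ z hz ih =>
    have h1 : z + 1 - 1 = (z - 1) + 1 := by omega
    have h2 : 2 ^ (z - 1 + 1) = 2 * 2 ^ (z - 1) := by ring
    rw [h1, h2]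
    nlinarith

theorem pe_le {P E R : ℕ} (hP : P ^ 6 ≤ R) (hE : E ^ 6 ≤ R) : P * E ^ 5 ≤ R := by
  have h1 : (P * E ^ 5) ^ 6 ≤ R ^ 6 := by
    calc (P * E ^ 5) ^ 6 = P ^ 6 * (E ^ 6) ^ 5 := by
          rw [mul_pow, ← pow_mul, ← pow_mul, mul_comm 5 6]
      _ ≤ R * R ^ 5 := by gcongr
      _ = R ^ 6 := by ring
  exact (Nat.pow_le_pow_iff_left (by norm_num)).mp h1

theorem pe_le' {P E R : ℕ} (hP : P ^ 6 ≤ R) (hE : E ^ 6 ≤ R) : P * E ^ 29 ≤ R ^ 5 := by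
  have h1 : (P * E ^ 29) ^ 6 ≤ (R ^ 5) ^ 6 := by
    calc (P * E ^ 29) ^ 6 = P ^ 6 * (E ^ 6) ^ 29 := by
          rw [mul_pow, ← pow_mul, ← pow_mul, mul_comm 29 6]
      _ ≤ R * R ^ 29 := by gcongr
      _ = (R ^ 5) ^ 6 := by rw [← pow_succ', ← pow_mul]
  exact (Nat.pow_le_pow_iff_left (by norm_num)).mp h1

theorem params3 (G : ℕ) : ∃ R0 : ℕ, ∀ R ≥ R0, ∀ E : ℕ, 0 < E → E ^ 6 ≤ R → ∃ t σ s0 q K κ : ℕ,
    κ = 6 * (s0 + 2) ∧ 1 ≤ t ∧ 1 ≤ s0 ∧ 0 < K ∧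
    2 * κ * R < 3 ^ t ∧
    32 * κ * t * R ^ 2 ≤ 3 ^ σ ∧
    32 * κ * t ^ 2 * (G * (σ + 1) ^ 2) * E ≤ R ∧
    256 * κ ^ 2 * t ^ 3 * (G * (σ + 1) ^ 2) * E ≤ 3 ^ s0 ∧
    4 * κ * (G * (s0 + q + 1) ^ 2) * 3 ^ q * E ≤ R ∧
    16 * κ * (G * (σ + 1) ^ 2) * E ≤ K ∧
    4 * κ * t * K * E * s0 ^ 2 * 3 ^ (s0 - 1) ≤ 2 ^ (q + 1) := by
  set M : ℕ := 10 ^ 8 * (G + 1) + 2 ^ 20 with hM
  refine ⟨2 ^ M, fun R hR E hE hER => ?_⟩
  set Y := Nat.log 2 R + 1 with hY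
  have hR0 : R ≠ 0 := by
    have : 0 < 2 ^ M := by positivity
    omega
  have hMY : M + 1 ≤ Y := by
    rw [hY]
    have : M ≤ Nat.log 2 R := Nat.le_log_of_pow_le (by norm_num) hR
    omega
  have hRlow : 2 ^ (Y - 1) ≤ R := by
    have : Y - 1 = Nat.log 2 R := by omega
    rw [this]
    exact Nat.pow_log_le_self 2 hR0
  have hRup : R < 2 ^ Y := by
    rw [hY]
    exact Nat.lt_pow_succ_log_self (by norm_num) R
  have hYbig : 2 ^ 20 < Y := by omega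
  have hGY : 10 ^ 8 * G ≤ Y := by omega
  have hk : ∀ k, k ≤ 10 ^ 8 → k * G ≤ Y := fun k hk => (Nat.mul_le_mul_right _ hk).trans hGY
  have hY1 : 1 ≤ Y := by omega
  clear_value Y
  set z := Nat.clog 2 Y with hz
  have hYz : Y ≤ 2 ^ z := Nat.le_pow_clog (by norm_num) Y
  have hzY : 2 ^ (z - 1) < Y := by
    have := Nat.pow_pred_clog_lt_self (b := 2) (by norm_num) (x := Y) (by omega)
    simpa [hz, Nat.pred_eq_sub_one] using this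
  have hz20 : 20 ≤ z := by
    by_contra h
    have h1 : z ≤ 20 := by omega
    have h2 : 2 ^ z ≤ 2 ^ 20 := Nat.pow_le_pow_right (by norm_num) h1
    omega
  have hzleY : z ≤ Y := by
    have : z - 1 < 2 ^ (z - 1) := Nat.lt_two_pow_self
    omega
  have hzin : 6 * (200 * z) ≤ Y - 1 := by
    have := z_ineq3 z hz20
    omega
  clear_value z
  -- polylog bound: `(Y ^ 200) ^ 6 ≤ R`
  have hYR : (Y ^ 200) ^ 6 ≤ R := by
    calc (Y ^ 200) ^ 6 ≤ ((2 ^ z) ^ 200) ^ 6 := by gcongr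
      _ = 2 ^ (6 * (200 * z)) := by rw [← pow_mul, ← pow_mul]; congr 1; ring
      _ ≤ 2 ^ (Y - 1) := Nat.pow_le_pow_right (by norm_num) hzin
      _ ≤ R := hRlow
  -- `Y ^ a * E ^ b ≤ R` for `b ≤ 5`, `a ≤ 200`
  have hYE : ∀ a b, a ≤ 200 → b ≤ 5 → Y ^ a * E ^ b ≤ R := by
    intro a b ha hb
    have e1 : Y ^ a ≤ Y ^ 200 := Nat.pow_le_pow_right hY1 ha
    have e2 : E ^ b ≤ E ^ 5 := Nat.pow_le_pow_right hE hb
    exact (Nat.mul_le_mul e1 e2).trans (pe_le hYR hER)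
  -- the choice
  set Q := Y ^ 8 * E with hQ
  set s0 := Nat.clog 3 Q with hs0
  have hQone : 1 < Q := by
    have : 1 < Y ^ 8 := Nat.one_lt_pow (by norm_num) (by omega)
    calc 1 < Y ^ 8 * 1 := by omega
      _ ≤ Y ^ 8 * E := Nat.mul_le_mul_left _ hE
  have hs01 : 1 ≤ s0 := Nat.clog_pos (by norm_num) (by omega)
  have hls0 : Q ≤ 3 ^ s0 := Nat.le_pow_clog (by norm_num) _
  have hls0' : 3 ^ (s0 - 1) ≤ Q := by
    have := Nat.pow_pred_clog_lt_self (b := 3) (by norm_num) (x := Q) hQone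
    have h2 : 3 ^ (s0 - 1) < Q := by simpa [hs0, Nat.pred_eq_sub_one] using this
    exact h2.le
  have hs0Y : s0 ≤ Y := by
    have h1 : 2 ^ (s0 - 1) < 2 ^ Y := by
      calc 2 ^ (s0 - 1) ≤ 3 ^ (s0 - 1) := Nat.pow_le_pow_left (by omega) _
        _ ≤ Q := hls0'
        _ = Y ^ 8 * E ^ 1 := by rw [pow_one]
        _ ≤ R := hYE 8 1 (by norm_num) (by norm_num)
        _ < 2 ^ Y := hRup
    have h2 := (Nat.pow_lt_pow_iff_right (by norm_num : 1 < 2)).mp h1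
    omega
  set q := Nat.clog 2 (Y ^ 17 * E ^ 3) with hq
  have hYEone : 1 < Y ^ 17 * E ^ 3 := by
    have h1 : 1 < Y ^ 17 := Nat.one_lt_pow (by norm_num) (by omega)
    have h2 : 1 ≤ E ^ 3 := Nat.one_le_pow _ _ hE
    calc 1 < Y ^ 17 * 1 := by omega
      _ ≤ Y ^ 17 * E ^ 3 := Nat.mul_le_mul_left _ h2
  have hq1 : Y ^ 17 * E ^ 3 ≤ 2 ^ q := Nat.le_pow_clog (by norm_num) _
  have hq2 : 2 ^ q ≤ 2 * (Y ^ 17 * E ^ 3) := by
    have h1 := Nat.pow_pred_clog_lt_self (b := 2) (by norm_num) (x := Y ^ 17 * E ^ 3) hYEone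
    have h2 : 2 ^ (q - 1) < Y ^ 17 * E ^ 3 := by simpa [hq, Nat.pred_eq_sub_one] using h1
    have h3 : 1 ≤ q := Nat.clog_pos (by norm_num) (by omega)
    have h4 : 2 ^ q = 2 * 2 ^ (q - 1) := by rw [← pow_succ']; congr 1; omega
    omega
  have hqY : q ≤ Y := by
    have h1 : 2 ^ (q - 1) < 2 ^ Y := by
      calc 2 ^ (q - 1) ≤ 2 ^ q := Nat.pow_le_pow_right (by norm_num) (by omega)
        _ ≤ 2 * (Y ^ 17 * E ^ 3) := hq2
        _ ≤ Y * (Y ^ 17 * E ^ 3) := Nat.mul_le_mul_right _ (by omega)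
        _ = Y ^ 18 * E ^ 3 := by ring
        _ ≤ R := hYE 18 3 (by norm_num) (by norm_num)
        _ < 2 ^ Y := hRup
    have h2 := (Nat.pow_lt_pow_iff_right (by norm_num : 1 < 2)).mp h1
    omega
  clear_value s0 q Q
  have hκ : 6 * (s0 + 2) ≤ 18 * Y := by omega
  have hl2Y : 2 ^ (2 * Y) ≤ 3 ^ (2 * Y) := Nat.pow_le_pow_left (by omega) _
  have hl4Y : 2 ^ (4 * Y) ≤ 3 ^ (4 * Y) := Nat.pow_le_pow_left (by omega) _
  have h5Y : 4 * Y + 1 ≤ 5 * Y := by omega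
  have hYY : ∀ a, a ≤ 200 → Y ^ a ≤ 2 ^ Y := by
    intro a ha
    have := hYE a 0 ha (by norm_num)
    rw [pow_zero, mul_one] at this
    omega
  have c1 : 2 * (6 * (s0 + 2)) * R < 3 ^ (2 * Y) := by
    calc 2 * (6 * (s0 + 2)) * R ≤ 2 * (18 * Y) * R := by gcongr
      _ = (36 * Y) * R := by ring
      _ ≤ (Y * Y) * R := by gcongr; omega
      _ = Y ^ 2 * R := by ring
      _ ≤ 2 ^ Y * R := Nat.mul_le_mul_right _ (hYY 2 (by norm_num))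
      _ < 2 ^ Y * 2 ^ Y := Nat.mul_lt_mul_of_pos_left hRup (by positivity)
      _ = 2 ^ (2 * Y) := by rw [← pow_add]; congr 1; ring
      _ ≤ 3 ^ (2 * Y) := hl2Y
  have c2 : 32 * (6 * (s0 + 2)) * (2 * Y) * R ^ 2 ≤ 3 ^ (4 * Y) := by
    calc 32 * (6 * (s0 + 2)) * (2 * Y) * R ^ 2 ≤ 32 * (18 * Y) * (2 * Y) * R ^ 2 := by gcongr
      _ = (1152 * Y ^ 2) * R ^ 2 := by ring
      _ ≤ (Y * Y ^ 2) * R ^ 2 := by gcongr; omega
      _ = Y ^ 3 * R ^ 2 := by ring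
      _ ≤ 2 ^ Y * (2 ^ Y) ^ 2 := by
        have := hYY 3 (by norm_num)
        gcongr
      _ = 2 ^ (3 * Y) := by rw [← pow_mul, ← pow_add]; congr 1; ring
      _ ≤ 2 ^ (4 * Y) := Nat.pow_le_pow_right (by norm_num) (by omega)
      _ ≤ 3 ^ (4 * Y) := hl4Y
  have c3 : 32 * (6 * (s0 + 2)) * (2 * Y) ^ 2 * (G * (4 * Y + 1) ^ 2) * E ≤ R := by
    calc 32 * (6 * (s0 + 2)) * (2 * Y) ^ 2 * (G * (4 * Y + 1) ^ 2) * E
        ≤ 32 * (18 * Y) * (2 * Y) ^ 2 * (G * (5 * Y) ^ 2) * E := by gcongr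
      _ = (57600 * G) * Y ^ 5 * E := by ring
      _ ≤ Y * Y ^ 5 * E :=
          Nat.mul_le_mul_right _ (Nat.mul_le_mul_right _ (hk _ (by norm_num)))
      _ = Y ^ 6 * E ^ 1 := by ring
      _ ≤ R := hYE 6 1 (by norm_num) (by norm_num)
  have c4 : 256 * (6 * (s0 + 2)) ^ 2 * (2 * Y) ^ 3 * (G * (4 * Y + 1) ^ 2) * E ≤ 3 ^ s0 := by
    calc 256 * (6 * (s0 + 2)) ^ 2 * (2 * Y) ^ 3 * (G * (4 * Y + 1) ^ 2) * E
        ≤ 256 * (18 * Y) ^ 2 * (2 * Y) ^ 3 * (G * (5 * Y) ^ 2) * E := by gcongr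
      _ = (16588800 * G) * Y ^ 7 * E := by ring
      _ ≤ Y * Y ^ 7 * E :=
          Nat.mul_le_mul_right _ (Nat.mul_le_mul_right _ (hk _ (by norm_num)))
      _ = Q := by rw [hQ]; ring
      _ ≤ 3 ^ s0 := hls0
  have c6 : 16 * (6 * (s0 + 2)) * (G * (4 * Y + 1) ^ 2) * E ≤ Y ^ 4 * E := by
    calc 16 * (6 * (s0 + 2)) * (G * (4 * Y + 1) ^ 2) * E
        ≤ 16 * (18 * Y) * (G * (5 * Y) ^ 2) * E := by gcongr
      _ = (7200 * G) * Y ^ 3 * E := by ring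
      _ ≤ Y * Y ^ 3 * E :=
          Nat.mul_le_mul_right _ (Nat.mul_le_mul_right _ (hk _ (by norm_num)))
      _ = Y ^ 4 * E := by ring
  refine ⟨2 * Y, 4 * Y, s0, q, Y ^ 4 * E, 6 * (s0 + 2), rfl, by omega, hs01, by positivity,
      c1, c2, c3, c4, ?_, c6, ?_⟩
  · -- fifth powers
    have h1 : (3 ^ q) ^ 5 ≤ (2 * (Y ^ 17 * E ^ 3)) ^ 8 := by
      calc (3 ^ q) ^ 5 = (3 ^ 5) ^ q := by rw [← pow_mul, ← pow_mul, mul_comm]
        _ ≤ (2 ^ 8) ^ q := Nat.pow_le_pow_left (by norm_num) _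
        _ = (2 ^ q) ^ 8 := by rw [← pow_mul, ← pow_mul, mul_comm]
        _ ≤ _ := Nat.pow_le_pow_left hq2 8
    have h2 : 4 * (6 * (s0 + 2)) * (G * (s0 + q + 1) ^ 2) ≤ Y ^ 4 := by
      calc 4 * (6 * (s0 + 2)) * (G * (s0 + q + 1) ^ 2)
          ≤ 4 * (18 * Y) * (G * (3 * Y) ^ 2) := by
            gcongr
            omega
        _ = (648 * G) * Y ^ 3 := by ring
        _ ≤ Y * Y ^ 3 := Nat.mul_le_mul_right _ (hk _ (by norm_num))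
        _ = Y ^ 4 := by ring
    have h3 : (4 * (6 * (s0 + 2)) * (G * (s0 + q + 1) ^ 2) * 3 ^ q * E) ^ 5 ≤ Y ^ 157 * E ^ 29 := by
      calc (4 * (6 * (s0 + 2)) * (G * (s0 + q + 1) ^ 2) * 3 ^ q * E) ^ 5
          ≤ (Y ^ 4 * 3 ^ q * E) ^ 5 := by gcongr
        _ = (3 ^ q) ^ 5 * (Y ^ 20 * E ^ 5) := by ring
        _ ≤ (2 * (Y ^ 17 * E ^ 3)) ^ 8 * (Y ^ 20 * E ^ 5) := Nat.mul_le_mul_right _ h1
        _ = 2 ^ 8 * (Y ^ 156 * E ^ 29) := by ring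
        _ ≤ Y * (Y ^ 156 * E ^ 29) := Nat.mul_le_mul_right _ (by omega)
        _ = Y ^ 157 * E ^ 29 := by ring
    have h5 : Y ^ 157 * E ^ 29 ≤ R ^ 5 := by
      have h6 : Y ^ 157 ≤ Y ^ 200 := Nat.pow_le_pow_right hY1 (by norm_num)
      exact (Nat.mul_le_mul_right _ h6).trans (pe_le' hYR hER)
    exact (Nat.pow_le_pow_iff_left (by norm_num)).mp (h3.trans h5)
  · calc 4 * (6 * (s0 + 2)) * (2 * Y) * (Y ^ 4 * E) * E * s0 ^ 2 * 3 ^ (s0 - 1)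
        ≤ 4 * (18 * Y) * (2 * Y) * (Y ^ 4 * E) * E * Y ^ 2 * Q := by gcongr
      _ = 144 * (Y ^ 16 * E ^ 3) := by rw [hQ]; ring
      _ ≤ Y * (Y ^ 16 * E ^ 3) := Nat.mul_le_mul_right _ (by omega)
      _ = Y ^ 17 * E ^ 3 := by ring
      _ ≤ 2 ^ q := hq1
      _ ≤ 2 ^ (q + 1) := Nat.pow_le_pow_right (by norm_num) (by omega)

/-- the quantitative bound for `l = 3` -/
theorem main3 : ∃ A : ℕ, ∀ (R : ℕ) (c : ℕ → ℕ → ℕ) (V : Finset ℕ) (lam : ℕ → ℕ → ℕ),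
    Lev c V 3 lam → RB c V R → ∀ E : ℕ, E ^ 6 ≤ R → E * V.card ≤ A * (R * 3 ^ R) := by
  obtain ⟨G', hG'⟩ := ap_bound
  set G := G' + 1 with hGdef
  have hG : ∀ (c : ℕ → ℕ → ℕ) (V : Finset ℕ) (l R : ℕ) (lam : ℕ → ℕ → ℕ), 3 ≤ l →
      Lev c V l lam → RB c V R → V.card ≤ G * (R + 1) ^ 2 * l ^ R := by
    intro c V l R lam hl hL hR
    refine (hG' c V l R lam hl hL hR).trans ?_
    gcongr
    omega
  obtain ⟨R0, hR0⟩ := params3 G
  refine ⟨G * (R0 + 3) ^ 2 + 2, fun R' c V lam hL hRB E' hE' => ?_⟩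
  by_contra hcon
  push Not at hcon
  obtain ⟨R, hRR', U, hUV, hRBU, hRec, hcard⟩ := exists_record (l := 3) (by omega) hRB
  have hlpos : ∀ k, 0 < 3 ^ k := fun k => pow_pos (by omega) k
  have hLU := hL.sub hUV
  have h1 : (G * (R0 + 3) ^ 2 + 2) * (R' * 3 ^ R) < E' * U.card := by
    have h2 : ((G * (R0 + 3) ^ 2 + 2) * (R' * 3 ^ R)) * 3 ^ R' < (E' * U.card) * 3 ^ R' := by
      calc ((G * (R0 + 3) ^ 2 + 2) * (R' * 3 ^ R)) * 3 ^ R' =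
          ((G * (R0 + 3) ^ 2 + 2) * (R' * 3 ^ R')) * 3 ^ R := by ring
        _ < (E' * V.card) * 3 ^ R := Nat.mul_lt_mul_of_pos_right hcon (hlpos R)
        _ = E' * (V.card * 3 ^ R) := by ring
        _ ≤ E' * (U.card * 3 ^ R') := Nat.mul_le_mul_left _ hcard
        _ = (E' * U.card) * 3 ^ R' := by ring
    exact lt_of_mul_lt_mul_right h2 (Nat.zero_le _)
  have hE'0 : 0 < E' := by
    rcases Nat.eq_zero_or_pos E' with h | h
    · rw [h] at h1; omega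
    · exact h
  have hE'R : E' ≤ R' := (Nat.le_self_pow (by norm_num) E').trans hE'
  have h3 : U.card ≤ G * (R + 1) ^ 2 * 3 ^ R := hG c U 3 R lam le_rfl hLU hRBU
  have hRbig : R0 + 2 ≤ R := by
    by_contra h
    have h5 : R + 1 ≤ R0 + 3 := by omega
    have h6 : E' * U.card ≤ (G * (R0 + 3) ^ 2 + 2) * (R' * 3 ^ R) := by
      calc E' * U.card ≤ R' * (G * (R + 1) ^ 2 * 3 ^ R) := Nat.mul_le_mul hE'R h3
        _ ≤ R' * (G * (R0 + 3) ^ 2 * 3 ^ R) := by gcongr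
        _ = (G * (R0 + 3) ^ 2) * (R' * 3 ^ R) := by ring
        _ ≤ _ := Nat.mul_le_mul_right _ (by omega)
    omega
  -- the largest `E` with `E ^ 6 ≤ R`
  set E := Nat.findGreatest (fun e => e ^ 6 ≤ R) R with hEdef
  have hE1 : E ^ 6 ≤ R := Nat.findGreatest_spec (P := fun e => e ^ 6 ≤ R) (m := 1) (by omega) (by simp; omega)
  have hE0 : 1 ≤ E := Nat.le_findGreatest (P := fun e => e ^ 6 ≤ R) (by omega) (by simp; omega)
  have hE2 : R < (E + 1) ^ 6 := by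
    by_contra h
    push Not at h
    have h7 : E + 1 ≤ E := Nat.le_findGreatest (P := fun e => e ^ 6 ≤ R)
      ((Nat.le_self_pow (by norm_num) (E + 1)).trans h) h
    omega
  have hE3 : R < (2 * E) ^ 6 := lt_of_lt_of_le hE2 (Nat.pow_le_pow_left (by omega) 6)
  have hRE : R * E' ≤ 2 * R' * E := by
    by_contra h
    push Not at h
    have h8 : (2 * R' * E) ^ 6 < (R * E') ^ 6 := Nat.pow_lt_pow_left h (by norm_num)
    have h9 : R' ^ 6 * R ≤ (2 * R' * E) ^ 6 := by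
      calc R' ^ 6 * R ≤ R' ^ 6 * (2 * E) ^ 6 := Nat.mul_le_mul_left _ hE3.le
        _ = _ := by ring
    have h10 : (R * E') ^ 6 ≤ R' ^ 6 * R := by
      calc (R * E') ^ 6 = R ^ 5 * R * E' ^ 6 := by ring
        _ ≤ R' ^ 5 * R * R' := by gcongr
        _ = R' ^ 6 * R := by ring
    omega
  have hnU : R * 3 ^ R ≤ E * U.card := by
    have h11 : (2 * R') * (R * 3 ^ R) * E' ≤ (2 * R') * (E * U.card) * E' := by
      calc (2 * R') * (R * 3 ^ R) * E' = (2 * (R' * 3 ^ R)) * (R * E') := by ring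
        _ ≤ (2 * (R' * 3 ^ R)) * (2 * R' * E) := Nat.mul_le_mul_left _ hRE
        _ = (2 * R') * E * (2 * (R' * 3 ^ R)) := by ring
        _ ≤ (2 * R') * E * ((G * (R0 + 3) ^ 2 + 2) * (R' * 3 ^ R)) := by
            apply Nat.mul_le_mul_left
            apply Nat.mul_le_mul_right
            omega
        _ ≤ (2 * R') * E * (E' * U.card) := Nat.mul_le_mul_left _ h1.le
        _ = (2 * R') * (E * U.card) * E' := by ring
    have h12 := Nat.le_of_mul_le_mul_right h11 hE'0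
    exact Nat.le_of_mul_le_mul_left h12 (by omega)
  obtain ⟨t, σ, s0, q, K, κ, hκ, ht, hs0, hK, p1, p2, p3, p4, p5, p6, p7⟩ :=
    hR0 R (by omega) E hE0 hE1
  refine core (g := fun j => G * (j + 1) ^ 2) le_rfl hLU hRBU hRec (by omega) ?_ ?_ hnU hκ ht hs0 hK
    p1 p2 p3 p4 p5 p6 (Or.inr p7)
  · intro W hW j hj
    exact hG c W 3 j lam le_rfl (hLU.sub hW) hj
  · intro i j hij
    show G * (i + 1) ^ 2 ≤ G * (j + 1) ^ 2
    gcongr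

/-- `f(3, k) ≤ C k ^ (5/6) 3 ^ (k - 1)` -/
theorem final3 : ∃ C : ℝ, ∀ k : ℕ, 1 ≤ k →
    (f' 3 k : ℝ) ≤ C * (k : ℝ) ^ (5 / 6 : ℝ) * 3 ^ (k - 1) := by
  obtain ⟨A, hA⟩ := main3
  refine ⟨2 * A + 2, fun k hk => ?_⟩
  have hk1 : (1 : ℝ) ≤ k := by exact_mod_cast hk
  have hkp : (1 : ℝ) ≤ (k : ℝ) ^ (5 / 6 : ℝ) := Real.one_le_rpow hk1 (by norm_num)
  have h3p : (0 : ℝ) < 3 ^ (k - 1) := by positivity
  rcases Nat.lt_or_ge k 2 with h2 | h2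
  · have hk' : k = 1 := by omega
    subst hk'
    have h4 := f_le_fact (l := 3) (k := 1) (by norm_num) le_rfl
    have h5 : (f' 3 1 : ℝ) ≤ 2 := by
      have : f' 3 1 ≤ 2 := by simpa using h4
      exact_mod_cast this
    have h6 : (0 : ℝ) ≤ A := by positivity
    simp
    linarith
  rcases Nat.eq_zero_or_pos (f' 3 k) with h0 | h0
  · rw [h0]
    have : (0 : ℝ) ≤ (2 * A + 2) * (k : ℝ) ^ (5 / 6 : ℝ) * 3 ^ (k - 1) := by positivity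
    simpa using this
  obtain ⟨n, lam, hn, c, hL, hR⟩ := exists_avoid (l := 3) (by norm_num) hk h0
  set R := k - 1 with hRdef
  have hR1 : 1 ≤ R := by omega
  set E := Nat.findGreatest (fun e => e ^ 6 ≤ R) R with hEdef
  have hE1 : E ^ 6 ≤ R := Nat.findGreatest_spec (P := fun e => e ^ 6 ≤ R) (m := 1) hR1 (by simpa using hR1)
  have hE0 : 1 ≤ E := Nat.le_findGreatest (P := fun e => e ^ 6 ≤ R) hR1 (by simpa using hR1)
  have hE2 : R < (E + 1) ^ 6 := by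
    by_contra h
    push Not at h
    have h7 : E + 1 ≤ E := Nat.le_findGreatest (P := fun e => e ^ 6 ≤ R)
      ((Nat.le_self_pow (by norm_num) (E + 1)).trans h) h
    omega
  have hE3 : R < (2 * E) ^ 6 := lt_of_lt_of_le hE2 (Nat.pow_le_pow_left (by omega) 6)
  have h8 := hA R c _ lam hL hR E hE1
  rw [Finset.card_range] at h8
  have hR0 : (0 : ℝ) < R := by exact_mod_cast hR1
  -- `R ^ (1/6) ≤ 2 E`
  have h9 : (R : ℝ) ^ (1 / 6 : ℝ) ≤ 2 * E := by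
    have h10 : (R : ℝ) ≤ (2 * E) ^ 6 := by exact_mod_cast hE3.le
    calc (R : ℝ) ^ (1 / 6 : ℝ) ≤ (((2 * E : ℝ)) ^ 6) ^ (1 / 6 : ℝ) :=
          Real.rpow_le_rpow hR0.le h10 (by norm_num)
      _ = 2 * E := by
          rw [← Real.rpow_natCast, ← Real.rpow_mul (by positivity)]
          norm_num
  have h11 : (R : ℝ) = (R : ℝ) ^ (5 / 6 : ℝ) * (R : ℝ) ^ (1 / 6 : ℝ) := by
    rw [← Real.rpow_add hR0]; norm_num
  have hEp : (0 : ℝ) < E := by exact_mod_cast hE0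
  have h12 : (E : ℝ) * n ≤ A * (R * 3 ^ R) := by exact_mod_cast h8
  have h13 : (n : ℝ) ≤ 2 * A * (R : ℝ) ^ (5 / 6 : ℝ) * 3 ^ R := by
    have h14 : (E : ℝ) * n ≤ E * (2 * A * (R : ℝ) ^ (5 / 6 : ℝ) * 3 ^ R) := by
      calc (E : ℝ) * n ≤ A * (R * 3 ^ R) := h12
        _ = A * (((R : ℝ) ^ (5 / 6 : ℝ) * (R : ℝ) ^ (1 / 6 : ℝ)) * 3 ^ R) := by rw [← h11]
        _ ≤ A * (((R : ℝ) ^ (5 / 6 : ℝ) * (2 * E)) * 3 ^ R) := by gcongr
        _ = _ := by ring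
    exact le_of_mul_le_mul_left h14 hEp
  have h15 : (R : ℝ) ^ (5 / 6 : ℝ) ≤ (k : ℝ) ^ (5 / 6 : ℝ) := by
    apply Real.rpow_le_rpow hR0.le _ (by norm_num)
    exact_mod_cast (by omega : R ≤ k)
  calc (f' 3 k : ℝ) ≤ n := by exact_mod_cast hn
    _ ≤ 2 * A * (R : ℝ) ^ (5 / 6 : ℝ) * 3 ^ R := h13
    _ ≤ (2 * A + 2) * (k : ℝ) ^ (5 / 6 : ℝ) * 3 ^ R := by gcongr; linarith

end Pool.Agent.TH780.FR
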